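import Pool.Agent.J4H43.SW.Three

/-!
# The leading `z`-degree of a Lie element is positive
-/

set_option autoImplicit false
set_option linter.unusedSectionVars false

namespace Pool.Agent.J4H43.SW

open Polynomial Pool.Agent.Helper392_GT Pool.Agent.J4H43.FR

universe u

attribute [local instance 100] LieRing.ofAssociativeRing

section de

variable {k : Type u} [Field k]

/-- dual numbers version of the derivation `x ↦ 0`, `y ↦ 1` -/
noncomputable def yA : FreeAlgebra k (Fin 2) →ₐ[k] (FreeAlgebra k (Fin 2))[X] :=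
  FreeAlgebra.lift k ![C (FreeAlgebra.ι k 0), C (FreeAlgebra.ι k 1) + X]

theorem yA_0 : yA (FreeAlgebra.ι k 0) = C (FreeAlgebra.ι k (0 : Fin 2)) := by
  rw [yA, FreeAlgebra.lift_ι_apply]; rfl

theorem yA_1 : yA (FreeAlgebra.ι k 1) = C (FreeAlgebra.ι k (1 : Fin 2)) + X := by
  rw [yA, FreeAlgebra.lift_ι_apply]; rfl

theorem yA_coeff_zero (b : FreeAlgebra k (Fin 2)) : (yA b).coeff 0 = b := by
  refine left_ind (fun b => (yA b).coeff 0 = b) ?_ ?_ ?_ ?_ b
  · rw [map_one, coeff_one_zero]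
  · intro a b ha hb
    rw [map_add, coeff_add, ha, hb]
  · intro c a ha
    rw [map_smul, coeff_smul, ha]
  · intro i a ha
    rw [map_mul, mul_coeff_zero, ha]
    fin_cases i
    · change (yA (FreeAlgebra.ι k 0)).coeff 0 * a = FreeAlgebra.ι k 0 * a
      rw [yA_0, coeff_C_zero]
    · change (yA (FreeAlgebra.ι k 1)).coeff 0 * a = FreeAlgebra.ι k 1 * a
      rw [yA_1, coeff_add, coeff_C_zero, coeff_X_zero, add_zero]

/-- the derivation `x ↦ 0`, `y ↦ 1` -/
noncomputable def dy : FreeAlgebra k (Fin 2) →ₗ[k] FreeAlgebra k (Fin 2) where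
  toFun b := (yA b).coeff 1
  map_add' a b := by rw [map_add, coeff_add]
  map_smul' c a := by rw [map_smul, coeff_smul, RingHom.id_apply]

theorem dy_apply (b : FreeAlgebra k (Fin 2)) : dy b = (yA b).coeff 1 := rfl

theorem dy_mul (a b : FreeAlgebra k (Fin 2)) : dy (a * b) = a * dy b + dy a * b := by
  rw [dy_apply, map_mul, mul_coeff_one, yA_coeff_zero, yA_coeff_zero]; rfl

theorem dy_0 : dy (FreeAlgebra.ι k (0 : Fin 2)) = 0 := by
  rw [dy_apply, yA_0, coeff_C_succ]

theorem dy_1 : dy (FreeAlgebra.ι k (1 : Fin 2)) = 1 := by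
  rw [dy_apply, yA_1, coeff_add, coeff_C_succ, coeff_X_one, zero_add]

theorem dy_alg (c : k) : dy (algebraMap k (FreeAlgebra k (Fin 2)) c) = 0 := by
  rw [dy_apply, AlgHom.commutes, Polynomial.algebraMap_apply, coeff_C_succ]

theorem dy_lie {n : ℕ} {σ : F2 k} (hσ : σ ∈ wt k n) (hn : n ≠ 1) : dy (toAssoc k σ) = 0 := by
  have key : ∃ c : k, dy (toAssoc k σ) = algebraMap k _ c ∧ (n ≠ 1 → c = 0) := by
    refine wt_ind (fun n u => ∃ c : k, dy (toAssoc k u) = algebraMap k _ c ∧ (n ≠ 1 → c = 0))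
      ?_ ?_ ?_ ?_ ?_ ?_ ?_ n hσ
    · intro n
      exact ⟨0, by rw [map_zero, map_zero, map_zero], fun _ => rfl⟩
    · rintro n a b ⟨c, hc, h⟩ ⟨c', hc', h'⟩
      exact ⟨c + c', by rw [map_add, map_add, hc, hc', map_add], fun hn => by
        rw [h hn, h' hn, add_zero]⟩
    · rintro n r a ⟨c, hc, h⟩
      exact ⟨r * c, by rw [map_smul, map_smul, hc, Algebra.smul_def, map_mul], fun hn => by
        rw [h hn, mul_zero]⟩
    · refine ⟨0, ?_, fun _ => rfl⟩
      have : toAssoc k (gx k) = FreeAlgebra.ι k 0 := toAssoc_of k 0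
      rw [this, dy_0, map_zero]
    · refine ⟨1, ?_, fun h => absurd rfl h⟩
      have : toAssoc k (gy k) = FreeAlgebra.ι k 1 := toAssoc_of k 1
      rw [this, dy_1, map_one]
    · rintro n u _ ⟨c, hc, _⟩
      refine ⟨0, ?_, fun _ => rfl⟩
      have e1 : toAssoc k ⁅gx k, u⁆ = FreeAlgebra.ι k 0 * toAssoc k u -
          toAssoc k u * FreeAlgebra.ι k 0 := by
        rw [toAssoc_lie]
        have : toAssoc k (gx k) = FreeAlgebra.ι k 0 := toAssoc_of k 0
        rw [this]
      rw [e1, map_sub, dy_mul, dy_mul, dy_0, hc, zero_mul, mul_zero, add_zero, zero_add,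
        ← Algebra.commutes, sub_self, map_zero]
    · rintro n u _ ⟨c, hc, _⟩
      refine ⟨0, ?_, fun _ => rfl⟩
      have e1 : toAssoc k ⁅gy k, u⁆ = FreeAlgebra.ι k 1 * toAssoc k u -
          toAssoc k u * FreeAlgebra.ι k 1 := by
        rw [toAssoc_lie]
        have : toAssoc k (gy k) = FreeAlgebra.ι k 1 := toAssoc_of k 1
        rw [this]
      rw [e1, map_sub, dy_mul, dy_mul, dy_1, hc, one_mul, mul_one, ← Algebra.commutes, map_zero]
      abel
  obtain ⟨c, hc, h⟩ := key
  rw [hc, h hn, map_zero]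

theorem dy_decomp (g : FreeAlgebra k (Fin 2)) : dy g = FreeAlgebra.ι k 0 * dy (lq g 0) +
    (lq g 1 + FreeAlgebra.ι k 1 * dy (lq g 1)) := by
  nth_rewrite 1 [decomp g]
  rw [map_add, dy_alg, zero_add, Finsupp.sum_fintype, Fin.sum_univ_two, map_add, dy_mul, dy_mul,
    dy_0, dy_1, zero_mul, add_zero, one_mul, add_comm (lq g 1)]
  intro i; rw [mul_zero]

theorem wc_lq (i : Fin 2) (w : FreeMonoid (Fin 2)) (g : FreeAlgebra k (Fin 2)) :
    wc w (lq g i) = wc (FreeMonoid.of i * w) g := by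
  conv_rhs => rw [decomp g]
  rw [map_add, Finsupp.sum_fintype, Fin.sum_univ_two, map_add]
  · have h0 : wc (FreeMonoid.of i * w) (algebraMap k (FreeAlgebra k (Fin 2)) (eps g)) = 0 := by
      classical
      rw [Algebra.algebraMap_eq_smul_one, map_smul, wc_unit, if_neg (of_mul_ne_one _ _), smul_zero]
    rw [h0, zero_add]
    fin_cases i
    · change wc w (lq g 0) = wc (FreeMonoid.of 0 * w) (FreeAlgebra.ι k 0 * lq g 0) +
        wc (FreeMonoid.of 0 * w) (FreeAlgebra.ι k 1 * lq g 1)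
      rw [wc_ι_mul, wc_ι_mul_ne (by decide), add_zero]
    · change wc w (lq g 1) = wc (FreeMonoid.of 1 * w) (FreeAlgebra.ι k 0 * lq g 0) +
        wc (FreeMonoid.of 1 * w) (FreeAlgebra.ι k 1 * lq g 1)
      rw [wc_ι_mul, wc_ι_mul_ne (by decide), zero_add]
  · intro i; rw [mul_zero]

theorem dy_x (w : FreeMonoid (Fin 2)) (g : FreeAlgebra k (Fin 2)) :
    wc (FreeMonoid.of 0 * w) (dy g) = wc w (dy (lq g 0)) + wc (FreeMonoid.of 0 * w) (lq g 1) := by
  rw [dy_decomp, map_add, map_add, wc_ι_mul, wc_ι_mul_ne (by decide), add_zero]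

theorem dy_y (w : FreeMonoid (Fin 2)) (g : FreeAlgebra k (Fin 2)) :
    wc (FreeMonoid.of 1 * w) (dy g) = wc (FreeMonoid.of 1 * w) (lq g 1) + wc w (dy (lq g 1)) := by
  rw [dy_decomp, map_add, map_add, wc_ι_mul, wc_ι_mul_ne (by decide), zero_add]

theorem dy_nil (g : FreeAlgebra k (Fin 2)) : wc 1 (dy g) = wc 1 (lq g 1) := by
  rw [dy_decomp, map_add, map_add, wc_nil_ι_mul, wc_nil_ι_mul, add_zero, zero_add]

/-- number of letters `y` -/
abbrev cy (w : FreeMonoid (Fin 2)) : ℕ := (FreeMonoid.toList w).count 1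

theorem dy_supp (v : FreeMonoid (Fin 2)) : ∀ g : FreeAlgebra k (Fin 2),
    (∀ w, cy w = cy v + 1 → wc w g = 0) → wc v (dy g) = 0 := by
  induction v using FreeMonoid.recOn with
  | one =>
    intro g hg
    rw [dy_nil, wc_lq]
    exact hg _ (by rw [cy, count_of_mul_1])
  | of_mul i v ih =>
    intro g hg
    fin_cases i
    · change wc (FreeMonoid.of 0 * v) (dy g) = 0
      change ∀ w, cy w = cy (FreeMonoid.of 0 * v) + 1 → wc w g = 0 at hg
      rw [cy, count_of_mul_0] at hg
      rw [dy_x, wc_lq, ih (lq g 0), zero_add]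
      · exact hg _ (by rw [cy, count_of_mul_1, count_of_mul_0])
      · intro w hw
        rw [wc_lq]
        exact hg _ (by rw [cy, count_of_mul_0]; exact hw)
    · change wc (FreeMonoid.of 1 * v) (dy g) = 0
      change ∀ w, cy w = cy (FreeMonoid.of 1 * v) + 1 → wc w g = 0 at hg
      rw [cy, count_of_mul_1] at hg
      rw [dy_y, wc_lq, ih (lq g 1), add_zero]
      · exact hg _ (by rw [cy, count_of_mul_1, count_of_mul_1])
      · intro w hw
        rw [wc_lq]
        exact hg _ (by rw [cy, count_of_mul_1]; rw [cy] at hw; rw [hw])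

theorem dy_key (b : ℕ) : ∀ (g : FreeAlgebra k (Fin 2)) (m : ℕ) (v : FreeMonoid (Fin 2)),
    (∀ a, a < b + 1 → ∀ v', a + cy v' = m →
      wc (FreeMonoid.of 1 ^ a * (FreeMonoid.of 0 * v')) g = 0) → b + 1 + cy v = m →
    wc (FreeMonoid.of 1 ^ b * (FreeMonoid.of 0 * v)) (dy g) =
      ((b : k) + 1) * wc (FreeMonoid.of 1 ^ (b + 1) * (FreeMonoid.of 0 * v)) g := by
  induction b with
  | zero =>
    intro g m v hg hm
    rw [pow_zero, one_mul, dy_x, wc_lq, dy_supp v (lq g 0), zero_add, zero_add, pow_one,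
      Nat.cast_zero, zero_add, one_mul]
    intro w hw
    rw [wc_lq]
    have := hg 0 (by omega) w (by omega)
    rwa [pow_zero, one_mul] at this
  | succ b ih =>
    intro g m v hg hm
    have e1 : ∀ u : FreeMonoid (Fin 2), FreeMonoid.of 1 * (FreeMonoid.of 1 *
        (FreeMonoid.of 1 ^ b * u)) = FreeMonoid.of 1 ^ (b + 1 + 1) * u := fun u => by
      rw [pow_succ', pow_succ', mul_assoc, mul_assoc]
    have e2 : ∀ u : FreeMonoid (Fin 2), FreeMonoid.of 1 * (FreeMonoid.of 1 ^ (b + 1) * u) =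
        FreeMonoid.of 1 ^ (b + 1 + 1) * u := fun u => by
      rw [pow_succ' _ (b + 1), mul_assoc]
    rw [pow_succ', mul_assoc, dy_y, wc_lq, ih (lq g 1) (m - 1) v ?_ (by omega), wc_lq, e1, e2]
    · push_cast
      ring
    · intro a ha v' hv'
      rw [wc_lq, ← mul_assoc, ← pow_succ']
      exact hg (a + 1) (by omega) v' (by omega)

theorem dy_pow (b : ℕ) : ∀ g : FreeAlgebra k (Fin 2),
    wc (FreeMonoid.of 1 ^ b) (dy g) = ((b : k) + 1) * wc (FreeMonoid.of 1 ^ (b + 1)) g := by
  induction b with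
  | zero =>
    intro g
    rw [pow_zero, dy_nil, wc_lq, zero_add, pow_one, Nat.cast_zero, zero_add, one_mul, mul_one]
  | succ b ih =>
    intro g
    rw [pow_succ', dy_y, wc_lq, ih (lq g 1), wc_lq, ← pow_succ', ← pow_succ']
    push_cast
    ring

theorem word_cases (w : FreeMonoid (Fin 2)) : (∃ b, w = FreeMonoid.of 1 ^ b) ∨
    ∃ b v, w = FreeMonoid.of 1 ^ b * (FreeMonoid.of 0 * v) := by
  induction w using FreeMonoid.recOn with
  | one => exact Or.inl ⟨0, (pow_zero _).symm⟩
  | of_mul i w ih =>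
    fin_cases i
    · exact Or.inr ⟨0, w, by rw [pow_zero, one_mul]; rfl⟩
    · rcases ih with ⟨b, rfl⟩ | ⟨b, v, rfl⟩
      · exact Or.inl ⟨b + 1, by rw [pow_succ']; rfl⟩
      · exact Or.inr ⟨b + 1, v, by rw [pow_succ', mul_assoc]; rfl⟩

theorem cy_pow_mul (b : ℕ) (v : FreeMonoid (Fin 2)) :
    cy (FreeMonoid.of 1 ^ b * (FreeMonoid.of 0 * v)) = b + cy v := by
  induction b with
  | zero => rw [pow_zero, one_mul, cy, count_of_mul_0, zero_add]
  | succ b ih =>
    rw [pow_succ', mul_assoc, cy, count_of_mul_1]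
    rw [cy] at ih
    rw [ih]; ring

theorem depth_succ [CharZero k] {n d : ℕ} {σ : F2 k} (hσ : σ ∈ wt k n) (hn : 2 ≤ n)
    (hd : DepthGE k d σ) (h : ∀ a, 1 ≤ a → hc d ((Ph σ).coeff a) = 0) : DepthGE k (d + 1) σ := by
  have hdy := dy_lie hσ (by omega)
  have hx : ∀ v, cy v = d → wc (FreeMonoid.of 0 * v) (toAssoc k σ) = 0 := by
    intro v hv
    obtain ⟨a, u, hu⟩ := wd_surj v
    have h1 : FreeMonoid.of 0 * v = wd (a + 1) u := by rw [hu, wd_succ]
    have h2 := wc_Ph σ (a + 1) u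
    have h3 : wc (wd (a + 1) u) (toAssoc k σ) = wordCoeff k σ (wd (a + 1) u) := rfl
    rw [h1, h3, ← h2]
    have h4 : u.length = d := by
      rw [← hv, hu, cy, count_one_wd]
    have h5 := congrArg (wc u) (h (a + 1) (by omega))
    rw [wc_hc, if_pos h4, map_zero] at h5
    exact h5
  have hall : ∀ b v, b + cy v = d →
      wc (FreeMonoid.of 1 ^ b * (FreeMonoid.of 0 * v)) (toAssoc k σ) = 0 := by
    intro b
    induction b using Nat.strong_induction_on with
    | _ b ih =>
      intro v hv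
      cases b with
      | zero =>
        rw [pow_zero, one_mul]
        exact hx v (by omega)
      | succ b =>
        have h1 := dy_key b (toAssoc k σ) d v (fun a ha v' hv' => ih a ha v' hv') hv
        rw [hdy, map_zero] at h1
        rcases mul_eq_zero.mp h1.symm with h2 | h2
        · exact absurd h2 (Nat.cast_add_one_ne_zero b)
        · exact h2
  intro w hw
  by_cases hlt : cy w < d
  · exact hd w hlt
  · have hwd : cy w = d := by
      have : cy w < d + 1 := hw
      omega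
    rcases word_cases w with ⟨b, rfl⟩ | ⟨b, v, rfl⟩
    · cases b with
      | zero =>
        have := eps_toAssoc σ
        rw [pow_zero]
        exact this
      | succ b =>
        have h1 := dy_pow b (toAssoc k σ)
        rw [hdy, map_zero] at h1
        rcases mul_eq_zero.mp h1.symm with h2 | h2
        · exact absurd h2 (Nat.cast_add_one_ne_zero b)
        · exact h2
    · rw [cy_pow_mul] at hwd
      exact hall b v hwd

end de

end Pool.Agent.J4H43.SW
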