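import Pool.Agent.J4H43.SW.Ind

/-!
# Elements of the same weight and depth generate a free Lie algebra
-/

set_option autoImplicit false
set_option linter.unusedSectionVars false

namespace Pool.Agent.J4H43.SW

open Polynomial Pool.Agent.Helper392_GT Pool.Agent.J4H43.FR

universe u v

attribute [local instance 100] LieRing.ofAssociativeRing

section fin

variable {k : Type u} [Field k] [CharZero k] {r : ℕ}

theorem no_drop_fam (h1 : S_SW1.{u}) (h3 : S_SW3.{u}) (h4 : S_SW4.{u}) (h5 : S_SW5.{u})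
    {n d : ℕ} {σ : Fin r → F2 k} (hσ : ∀ i, IsGRT k (σ i)) (hw : ∀ i, σ i ∈ wt k n)
    (hdep : ∀ i, DepthGE k d (σ i))
    (hli : ∀ c : Fin r → k, DepthGE k (d + 1) (∑ i, c i • σ i) → c = 0)
    {D : Fin r → LieDerivation k (F2 k) (F2 k)} (hD : ∀ i, IsIharaDer (D i) (σ i))
    {R : FreeLieAlgebra k (Fin r)} {w : FreeMonoid (Fin r)} (hR : wc w (toA k r R) ≠ 0)
    {h : F2 k} (hh : FreeLieAlgebra.lift k D R (gy k) = ⁅gy k, h⁆) :
    ¬ DepthGE k (w.length * d + 1) h := by
  classical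
  have hn : ∀ i, ¬ DepthGE k (d + 1) (σ i) := by
    intro i hi
    have e1 : ∑ l, (Pi.single i (1 : k) : Fin r → k) l • σ l = σ i := by
      rw [Finset.sum_eq_single i]
      · rw [Pi.single_eq_same, one_smul]
      · intro l _ hl
        rw [Pi.single_eq_of_ne hl, zero_smul]
      · intro h; exact absurd (Finset.mem_univ _) h
    have e2 := hli (Pi.single i 1) (by rw [e1]; exact hi)
    have e3 := congrFun e2 i
    rw [Pi.single_eq_same] at e3
    exact one_ne_zero e3
  have h0 : ∀ i, σ i ≠ 0 := by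
    intro i h
    apply hn i
    rw [h]; exact DepthGE.zero _
  have hL : ∀ i, ∃ e, Ld (σ i) d e := by
    intro i
    obtain ⟨d', e, l⟩ := exists_Ld (hσ i) (h0 i)
    obtain rfl := depth_unique (hdep i) (hn i) l.dep l.not
    exact ⟨e, l⟩
  choose e he using hL
  have hd1 : 1 ≤ d := by
    induction w using FreeMonoid.casesOn with
    | one => exact absurd (eps_toA R) hR
    | of_mul i w => exact (he i).d1
  refine main_fam h1 h3 h4 h5 hd1 _ σ D e ⟨hσ, hw, hdep, hli, he⟩ hD rfl R h w.length hh ?_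
  intro hz
  apply hR
  have h6 := wc_hc w w.length (toA k r R)
  rw [if_pos rfl, hz, map_zero] at h6
  exact h6.symm

theorem free_fam_inj (h1 : S_SW1.{u}) (h2 : S_SW2.{u}) (h3 : S_SW3.{u}) (h4 : S_SW4.{u})
    (h5 : S_SW5.{u})
    {n d : ℕ} {σ : Fin r → F2 k} (hσ : ∀ i, IsGRT k (σ i)) (hw : ∀ i, σ i ∈ wt k n)
    (hdep : ∀ i, DepthGE k d (σ i))
    (hli : ∀ c : Fin r → k, DepthGE k (d + 1) (∑ i, c i • σ i) → c = 0)
    {D : Fin r → LieDerivation k (F2 k) (F2 k)} (hD : ∀ i, IsIharaDer (D i) (σ i)) :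
    Function.Injective (FreeLieAlgebra.lift k D) := by
  rw [injective_iff_map_eq_zero]
  intro R hR
  apply h2 k r
  refine wc_ext fun w => ?_
  by_contra hw0
  refine no_drop_fam h1 h3 h4 h5 hσ hw hdep hli hD hw0 (h := 0) ?_ (DepthGE.zero _)
  rw [hR, lie_zero]; rfl

end fin

end Pool.Agent.J4H43.SW
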