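import Pool.Agent.J4H43.SW.Stm2
import Pool.Agent.J4H43.SW.Le
import Pool.Agent.Helper392_GT.Base

/-!
# Bihomogeneity
-/

set_option autoImplicit false
set_option linter.unusedSectionVars false

namespace Pool.Agent.J4H43.SW

open Polynomial Pool.Agent.Helper392_GT Pool.Agent.J4H43.FR Pool.Agent.Helper771.FreeLieGrad

universe u

attribute [local instance 100] LieRing.ofAssociativeRing

section

variable {k : Type u} [Field k]

/-- counting the letters `y` -/
noncomputable def yc : FreeAlgebra k (Fin 2) →ₐ[k] (FreeAlgebra k (Fin 2))[X] :=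
  FreeAlgebra.lift k ![C (FreeAlgebra.ι k 0), C (FreeAlgebra.ι k 1) * X]

theorem yc_0 : yc (FreeAlgebra.ι k 0) = C (FreeAlgebra.ι k (0 : Fin 2)) := by
  rw [yc, FreeAlgebra.lift_ι_apply]; rfl

theorem yc_1 : yc (FreeAlgebra.ι k 1) = C (FreeAlgebra.ι k (1 : Fin 2)) * X := by
  rw [yc, FreeAlgebra.lift_ι_apply]; rfl

theorem cy_one : cy 1 = 0 := rfl

theorem wc_yc (g : FreeAlgebra k (Fin 2)) : ∀ (w : FreeMonoid (Fin 2)) (j : ℕ),
    wc w ((yc g).coeff j) = if cy w = j then wc w g else 0 := by
  classical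
  refine left_ind (fun g => ∀ (w : FreeMonoid (Fin 2)) (j : ℕ),
    wc w ((yc g).coeff j) = if cy w = j then wc w g else 0) ?_ ?_ ?_ ?_ g
  · intro w j
    rw [map_one, coeff_one, wc_unit]
    by_cases hj : j = 0
    · rw [if_pos hj, wc_unit]
      by_cases hw : w = 1
      · rw [if_pos hw, hw, hj, cy_one, if_pos rfl]
      · rw [if_neg hw, ite_self]
    · rw [if_neg hj, map_zero]
      by_cases hw : w = 1
      · rw [hw, cy_one, if_neg (fun h => hj h.symm)]
      · rw [if_neg hw, ite_self]
  · intro a b ha hb w j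
    rw [map_add, coeff_add, map_add, ha, hb, map_add]
    split_ifs
    · rfl
    · rw [add_zero]
  · intro c a ha w j
    rw [map_smul, coeff_smul, map_smul, ha, map_smul]
    split_ifs
    · rfl
    · rw [smul_zero]
  · intro i a ha w j
    fin_cases i
    · change wc w ((yc (FreeAlgebra.ι k 0 * a)).coeff j) =
        if cy w = j then wc w (FreeAlgebra.ι k 0 * a) else 0
      rw [map_mul, yc_0, coeff_C_mul]
      induction w using FreeMonoid.casesOn with
      | one => rw [wc_nil_ι_mul, wc_nil_ι_mul, ite_self]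
      | of_mul z v =>
        fin_cases z
        · change wc (FreeMonoid.of 0 * v) _ = if cy (FreeMonoid.of 0 * v) = j then
            wc (FreeMonoid.of 0 * v) _ else 0
          rw [wc_ι_mul, wc_ι_mul, ha, cy, cy, count_of_mul_0]
        · change wc (FreeMonoid.of 1 * v) _ = if cy (FreeMonoid.of 1 * v) = j then
            wc (FreeMonoid.of 1 * v) _ else 0
          rw [wc_ι_mul_ne (by decide), wc_ι_mul_ne (by decide), ite_self]
    · change wc w ((yc (FreeAlgebra.ι k 1 * a)).coeff j) =
        if cy w = j then wc w (FreeAlgebra.ι k 1 * a) else 0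
      rw [map_mul, yc_1, mul_assoc, coeff_C_mul]
      cases j with
      | zero =>
        rw [coeff_X_mul_zero, mul_zero, map_zero]
        induction w using FreeMonoid.casesOn with
        | one => rw [wc_nil_ι_mul, ite_self]
        | of_mul z v =>
          fin_cases z
          · change (0 : k) = if cy (FreeMonoid.of 0 * v) = 0 then
              wc (FreeMonoid.of 0 * v) (FreeAlgebra.ι k 1 * a) else 0
            rw [wc_ι_mul_ne (by decide), ite_self]
          · change (0 : k) = if cy (FreeMonoid.of 1 * v) = 0 then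
              wc (FreeMonoid.of 1 * v) (FreeAlgebra.ι k 1 * a) else 0
            rw [cy, count_of_mul_1, if_neg (by omega)]
      | succ j =>
        rw [coeff_X_mul]
        induction w using FreeMonoid.casesOn with
        | one => rw [wc_nil_ι_mul, wc_nil_ι_mul, ite_self]
        | of_mul z v =>
          fin_cases z
          · change wc (FreeMonoid.of 0 * v) _ = if cy (FreeMonoid.of 0 * v) = j + 1 then
              wc (FreeMonoid.of 0 * v) _ else 0
            rw [wc_ι_mul_ne (by decide), wc_ι_mul_ne (by decide), ite_self]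
          · change wc (FreeMonoid.of 1 * v) _ = if cy (FreeMonoid.of 1 * v) = j + 1 then
              wc (FreeMonoid.of 1 * v) _ else 0
            rw [wc_ι_mul, wc_ι_mul, ha, cy, cy, count_of_mul_1]
            simp only [Nat.add_right_cancel_iff]

theorem Hom_yc {m : ℕ} {f : F2 k} (hf : f ∈ Hom (K := k) wy m) :
    yc (toAssoc k f) = C (toAssoc k f) * X ^ m := by
  have hmul : ∀ (a b : FreeAlgebra k (Fin 2)) (i j : ℕ), (C a * X ^ i) * (C b * X ^ j) =
      C (a * b) * X ^ (i + j) := by
    intro a b i j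
    rw [mul_assoc, ← mul_assoc (X ^ i), X_pow_mul, mul_assoc, ← mul_assoc, ← C_mul, pow_add]
  have h := Hom_le (K := k) wy (T := fun m =>
    { carrier := {f : F2 k | yc (toAssoc k f) = C (toAssoc k f) * X ^ m}
      add_mem' := by
        intro a b ha hb
        change yc (toAssoc k (a + b)) = C (toAssoc k (a + b)) * X ^ m
        rw [map_add, map_add, ha, hb, C_add, add_mul]
      zero_mem' := by
        change yc (toAssoc k 0) = C (toAssoc k 0) * X ^ m
        rw [map_zero, map_zero, C_0, zero_mul]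
      smul_mem' := by
        intro c a ha
        change yc (toAssoc k (c • a)) = C (toAssoc k (c • a)) * X ^ m
        rw [map_smul, map_smul, ha, ← smul_C, smul_mul_assoc] }) ?_ ?_ m hf
  · exact h
  · intro i j a ha b hb _ _
    change yc (toAssoc k ⁅a, b⁆) = C (toAssoc k ⁅a, b⁆) * X ^ (i + j)
    have ha' : yc (toAssoc k a) = C (toAssoc k a) * X ^ i := ha
    have hb' : yc (toAssoc k b) = C (toAssoc k b) * X ^ j := hb
    rw [toAssoc_lie, map_sub, map_mul, map_mul, ha', hb', hmul, hmul, C_sub, sub_mul,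
      add_comm j i]
  · intro y
    change yc (toAssoc k (FreeLieAlgebra.of k y)) =
      C (toAssoc k (FreeLieAlgebra.of k y)) * X ^ (wy y)
    rw [toAssoc_of]
    fin_cases y
    · change yc (FreeAlgebra.ι k 0) = C (FreeAlgebra.ι k 0) * X ^ 0
      rw [yc_0, pow_zero, mul_one]
    · change yc (FreeAlgebra.ι k 1) = C (FreeAlgebra.ι k 1) * X ^ 1
      rw [yc_1, pow_one]

end

section

variable {k : Type u} [Field k]

theorem der_Hom {m : ℕ} {f : F2 k} (hf : f ∈ Hom (K := k) wy m)
    {D : LieDerivation k (F2 k) (F2 k)} (hD : IsIharaDer D f) {n : ℕ} {u : F2 k}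
    (hu : u ∈ Hom (K := k) wy n) : D u ∈ Hom (K := k) wy (m + n) := by
  have h := Hom_le (K := k) wy (T := fun n => (Hom (K := k) wy (m + n)).comap
    (D : F2 k →ₗ[k] F2 k)) ?_ ?_ n hu
  · exact h
  · intro i j a ha b hb hai hbj
    have ha' : D a ∈ Hom (K := k) wy (m + i) := ha
    have hb' : D b ∈ Hom (K := k) wy (m + j) := hb
    change D ⁅a, b⁆ ∈ Hom (K := k) wy (m + (i + j))
    rw [LieDerivation.apply_lie_eq_sub]
    refine Submodule.sub_mem _ ?_ ?_
    · have := lie_mem_Hom wy hai hb'
      rwa [show i + (m + j) = m + (i + j) by ring] at this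
    · have := lie_mem_Hom wy hbj ha'
      rwa [show j + (m + i) = m + (i + j) by ring] at this
  · intro y
    fin_cases y
    · change D (gx k) ∈ Hom (K := k) wy (m + 0)
      have : D (gx k) = 0 := hD.1
      rw [this]; exact Submodule.zero_mem _
    · change D (gy k) ∈ Hom (K := k) wy (m + 1)
      have : D (gy k) = ⁅gy k, f⁆ := hD.2
      rw [this, add_comm]
      exact lie_mem_Hom wy (of_mem_Hom wy 1) hf

theorem vm_Hom (n : ℕ) : vm k n ∈ Hom (K := k) wy 1 := by
  induction n with
  | zero =>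
    have : vm k 0 = gy k := rfl
    rw [this]
    exact of_mem_Hom wy 1
  | succ n ih =>
    rw [vm_succ]
    have := lie_mem_Hom wy (of_mem_Hom (K := k) wy 0) ih
    have e : wy 0 + 1 = 1 := rfl
    rwa [e] at this

theorem br_der {D : ℕ → LieDerivation k (F2 k) (F2 k)}
    (hD : ∀ i, IsIharaDer (D i) (vm k (2 * i + 2))) {m N : ℕ} {η : FreeLieAlgebra k ℕ}
    (h : Br k m N η) : ∃ f : F2 k, IsIharaDer (FreeLieAlgebra.lift k D η) f ∧
      f ∈ wt k N ∧ f ∈ Hom (K := k) wy m := by
  induction h with
  | of i =>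
    refine ⟨vm k (2 * i + 2), ?_, gx_pow_wt _, vm_Hom _⟩
    rw [FreeLieAlgebra.lift_of_apply]
    exact hD i
  | @lie m N m' N' a b _ _ iha ihb =>
    obtain ⟨f, hf, hfw, hfy⟩ := iha
    obtain ⟨g, hg, hgw, hgy⟩ := ihb
    refine ⟨⁅f, g⁆ + FreeLieAlgebra.lift k D a g - FreeLieAlgebra.lift k D b f, ⟨?_, ?_⟩, ?_, ?_⟩
    · rw [LieHom.map_lie, LieDerivation.commutator_apply, hf.1, hg.1, map_zero, map_zero,
        sub_zero]
    · rw [LieHom.map_lie, LieDerivation.commutator_apply, hf.2, hg.2,
        LieDerivation.apply_lie_eq_sub, LieDerivation.apply_lie_eq_sub, hf.2, hg.2, lie_sub,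
        lie_add, leibniz_lie (FreeLieAlgebra.of k 1) f g,
        ← lie_skew g ⁅(FreeLieAlgebra.of k 1 : F2 k), f⁆]
      abel
    · refine Submodule.sub_mem _ (Submodule.add_mem _ (lie_wt hfw hgw) (der_wt hfw _ hf.1 hf.2
        hgw)) ?_
      rw [add_comm N N']
      exact der_wt hgw _ hg.1 hg.2 hfw
    · refine Submodule.sub_mem _ (Submodule.add_mem _ (lie_mem_Hom wy hfy hgy)
        (der_Hom hfy hf hgy)) ?_
      rw [add_comm m m']
      exact der_Hom hgy hg hfy

end

theorem t_J1 : S_J1.{u} := by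
  intro k _ D hD m N η hη
  induction hη using Submodule.span_induction with
  | mem x hx => exact br_der hD hx
  | zero =>
    refine ⟨0, ?_, Submodule.zero_mem _, Submodule.zero_mem _⟩
    rw [map_zero]
    exact ⟨rfl, by rw [lie_zero]; rfl⟩
  | add a b _ _ ha hb =>
    obtain ⟨f, hf, hfw, hfy⟩ := ha
    obtain ⟨g, hg, hgw, hgy⟩ := hb
    refine ⟨f + g, ⟨?_, ?_⟩, Submodule.add_mem _ hfw hgw, Submodule.add_mem _ hfy hgy⟩
    · rw [map_add, LieDerivation.add_apply, hf.1, hg.1, add_zero]
    · rw [map_add, LieDerivation.add_apply, hf.2, hg.2, lie_add]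
  | smul c a _ ha =>
    obtain ⟨f, hf, hfw, hfy⟩ := ha
    refine ⟨c • f, ⟨?_, ?_⟩, Submodule.smul_mem _ _ hfw, Submodule.smul_mem _ _ hfy⟩
    · rw [map_smul, LieDerivation.smul_apply, hf.1, smul_zero]
    · rw [map_smul, LieDerivation.smul_apply, hf.2, lie_smul]

theorem t_J2 : S_J2.{u} := by
  intro k _ _ m f hf
  have key : ∀ w, cy w ≠ m → wordCoeff k f w = 0 := by
    intro w hw
    have h1 := wc_yc (toAssoc k f) w (cy w)
    rw [if_pos rfl, Hom_yc hf, coeff_C_mul, coeff_X_pow, if_neg hw, mul_zero, map_zero] at h1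
    exact h1.symm
  refine ⟨fun w hw => key w (by have : cy w < m := hw; omega), fun h => ?_⟩
  apply toAssoc_inj
  refine wc_ext fun w => ?_
  by_cases hw : cy w = m
  · exact h w (by have : cy w < m + 1 := by omega
                  exact this)
  · exact key w hw

end Pool.Agent.J4H43.SW
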