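import Pool.Agent.J4H43.SW.Stm

/-!
# Families of operators of the same depth
-/

set_option autoImplicit false

namespace Pool.Agent.J4H43.SW

open Polynomial Pool.Agent.Helper392_GT Pool.Agent.J4H43.FR

universe u v

attribute [local instance 100] LieRing.ofAssociativeRing

section fam

variable {k : Type u} [Field k] {r : ℕ}

/-- the degree of a word -/
def we (e : Fin r → ℕ) (w : FreeMonoid (Fin r)) : ℕ := ((FreeMonoid.toList w).map e).sum

theorem we_one (e : Fin r → ℕ) : we e 1 = 0 := by simp [we, FreeMonoid.toList_one]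

theorem we_mul (e : Fin r → ℕ) (i : Fin r) (w : FreeMonoid (Fin r)) :
    we e (FreeMonoid.of i * w) = we e w + e i := by
  rw [we, we, FreeMonoid.toList_of_mul, List.map_cons, List.sum_cons, add_comm]

theorem word_mul {S : Type*} [Monoid S] (f : Fin r → S) (w : FreeMonoid (Fin r)) (i : Fin r) :
    FreeMonoid.lift f (FreeMonoid.of i * w) = f i * FreeMonoid.lift f w := by
  rw [MonoidHom.map_mul, FreeMonoid.lift_eval_of]

theorem sym_fam {P : Fin r → Module.End k (BB k)[X]} {d : ℕ} {e : Fin r → ℕ} {H : Fin r → BB k}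
    (hP : ∀ i, HasSym (P i) d (e i) (H i)) (w : FreeMonoid (Fin r)) :
    Sy (w.length * d) (we e w) (FreeMonoid.lift P w 1) ∧
      hc (w.length * d) ((FreeMonoid.lift P w 1).coeff (we e w)) = FreeMonoid.lift H w := by
  induction w using FreeMonoid.recOn with
  | one =>
    rw [we_one, FreeMonoid.length_one, zero_mul, MonoidHom.map_one, MonoidHom.map_one,
      Module.End.one_apply]
    refine ⟨Sy_one, ?_⟩
    rw [coeff_one_zero, hc_one, if_pos rfl]
  | of_mul i w ih =>
    have e1 : (FreeMonoid.of i * w).length * d = w.length * d + d := by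
      rw [FreeMonoid.length_mul, FreeMonoid.length_of]; ring
    rw [word_mul, word_mul, Module.End.mul_apply, we_mul, e1, ← ih.2]
    exact hP i _ _ _ ih.1

theorem lift_wrd_fam {A : Type v} [Semiring A] [Algebra k A] (f : Fin r → A)
    (w : FreeMonoid (Fin r)) : FreeAlgebra.lift k f (wrd w) = FreeMonoid.lift f w := by
  induction w using FreeMonoid.recOn with
  | one => rw [wrd_one, map_one, map_one]
  | of_mul i w ih => rw [wrd_mul, map_mul, ih, wrd_of, FreeAlgebra.lift_ι_apply, word_mul]

theorem lift_one_fam (P : Fin r → Module.End k (BB k)[X]) (g : FreeAlgebra k (Fin r)) :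
    FreeAlgebra.lift k P g 1 = (FreeAlgebra.equivMonoidAlgebraFreeMonoid g).coeff.sum
      (fun w c => c • FreeMonoid.lift P w 1) := by
  nth_rewrite 1 [sum_wc g]
  rw [Finsupp.sum, map_sum, LinearMap.sum_apply, Finsupp.sum]
  refine Finset.sum_congr rfl fun w _ => ?_
  rw [map_smul, lift_wrd_fam, LinearMap.smul_apply]

theorem caseA_fam {P : Fin r → Module.End k (BB k)[X]} {d : ℕ} (hd : 1 ≤ d) {e : Fin r → ℕ}
    {H : Fin r → BB k} (hP : ∀ i, HasSym (P i) d (e i) (H i))
    (hfree : ∀ G : FreeAlgebra k (Fin r), FreeAlgebra.lift k H G = 0 → G = 0)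
    (he : ∀ i, 1 ≤ e i) {g : FreeAlgebra k (Fin r)} (hg1 : wc 1 g = 0)
    (hval : ∀ u m, wc u g ≠ 0 → (∀ v, wc v g ≠ 0 → u.length ≤ v.length) → 1 ≤ m →
      hc (u.length * d) ((FreeAlgebra.lift k P g 1).coeff m) = 0) : g = 0 := by
  classical
  by_contra hg
  set G := (FreeAlgebra.equivMonoidAlgebraFreeMonoid g).coeff with hG
  have hG0 : G ≠ 0 := by
    intro h0
    apply hg
    refine wc_ext fun v => ?_
    rw [wc_apply, ← hG, h0]; rfl
  obtain ⟨u0, hu0, hmin⟩ := Finset.exists_min_image G.support (fun w => w.length)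
    (Finsupp.support_nonempty_iff.mpr hG0)
  obtain ⟨u1, hu1, hmax⟩ := Finset.exists_max_image
    (G.support.filter fun w => w.length = u0.length) (fun w => we e w)
    ⟨u0, Finset.mem_filter.mpr ⟨hu0, rfl⟩⟩
  rw [Finset.mem_filter] at hu1
  have hm1 : 1 ≤ we e u1 := by
    have h1 : wc u1 g ≠ 0 := Finsupp.mem_support_iff.mp hu1.1
    induction u1 using FreeMonoid.casesOn with
    | one => exact absurd hg1 h1
    | of_mul i w =>
      rw [we_mul]
      have := he i
      omega
  set m := we e u1 with hm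
  set g' : FreeAlgebra k (Fin r) :=
    ∑ w ∈ G.support.filter (fun w => w.length = u0.length ∧ we e w = m), G w • wrd w with hg'
  have hval' : hc (u0.length * d) ((FreeAlgebra.lift k P g 1).coeff m) =
      FreeAlgebra.lift k H g' := by
    rw [lift_one_fam, Finsupp.sum, finsetSum_coeff, map_sum, hg', map_sum, Finset.sum_filter]
    refine Finset.sum_congr rfl fun w hw => ?_
    obtain ⟨s1, s2⟩ := sym_fam hP w
    rw [coeff_smul, map_smul]
    split_ifs with hwp
    · rw [map_smul, lift_wrd_fam, ← s2, hwp.1, hwp.2]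
    · have h4 := hmin w hw
      by_cases h5 : w.length = u0.length
      · have h6 := hmax w (Finset.mem_filter.mpr ⟨hw, h5⟩)
        rw [← h5, s1.2 m (lt_of_le_of_ne h6 fun h7 => hwp ⟨h5, h7⟩), smul_zero]
      · rw [s1.1 _ (Nat.mul_lt_mul_of_pos_right (by omega) (by omega)) m, smul_zero]
  have hz : g' = 0 := by
    apply hfree
    rw [← hval', ← hu1.2]
    apply hval u1 m (Finsupp.mem_support_iff.mp hu1.1) _ hm1
    intro v hv
    rw [hu1.2]
    exact hmin v (Finsupp.mem_support_iff.mpr hv)
  have h5 := congrArg (wc u1) hz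
  rw [hg', map_sum, map_zero, Finset.sum_eq_single u1] at h5
  · rw [map_smul, wc_wrd_self, smul_eq_mul, mul_one] at h5
    exact Finsupp.mem_support_iff.mp hu1.1 h5
  · intro w _ hne
    rw [map_smul, wc_wrd_ne (Ne.symm hne), smul_zero]
  · intro h6
    exact absurd (Finset.mem_filter.mpr ⟨hu1.1, hu1.2, rfl⟩) h6

end fam

end Pool.Agent.J4H43.SW
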