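import Pool.Agent.J4H43.SW.Ker
import Pool.Agent.J4H43.SW.J12

/-!
# Relations between Lie polynomials of one degree and one weight: conclusion
-/

set_option autoImplicit false
set_option linter.unusedSectionVars false

namespace Pool.Agent.J4H43.SW

open Pool.Agent.Helper392_GT Pool.Agent.J4H43.FR Pool.Agent.Helper771.FreeLieGrad

universe u

attribute [local instance 100] LieRing.ofAssociativeRing

theorem free_piece {k : Type u} [Field k] [CharZero k]
    {D : ℕ → LieDerivation k (F2 k) (F2 k)}
    (hD : ∀ i, IsIharaDer (D i) (vm k (2 * i + 2))) {m N q : ℕ}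
    {η : Fin q → FreeLieAlgebra k ℕ} (hη : ∀ i, η i ∈ piece k m N)
    (hli : LinearIndependent k (fun i => FreeLieAlgebra.lift k D (η i))) :
    Function.Injective (FreeLieAlgebra.lift k (fun i => FreeLieAlgebra.lift k D (η i))) := by
  rcases Nat.eq_zero_or_pos q with h0 | h0
  · subst h0
    have hz : ∀ R : FreeLieAlgebra k (Fin 0), R = 0 := fun R =>
      free_induction (P := fun R' : FreeLieAlgebra k (Fin 0) => R' = 0)
        (fun y => y.elim0) rfl (fun a b ha hb => by rw [ha, hb, add_zero])
        (fun c a ha => by rw [ha, smul_zero]) (fun a b ha hb => by rw [ha, zero_lie]) R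
    intro a b _
    rw [hz a, hz b]
  · have hne : η ⟨0, h0⟩ ≠ 0 := by
      intro hz
      apply hli.ne_zero ⟨0, h0⟩
      change FreeLieAlgebra.lift k D (η ⟨0, h0⟩) = 0
      rw [hz, map_zero]
    obtain ⟨hm, hN⟩ := piece_pos (hη _) hne
    choose f hf hfw hfy using fun j => t_J1 k D hD m N (η j) (hη _)
    refine free_gen (n := N) (d := m) (by omega) hm hfw (fun j => (t_J2 k m (f j) (hfy j)).1)
      ?_ hf
    intro x hx
    have hg : ∑ j, x j • f j ∈ Hom (K := k) wy m :=
      Submodule.sum_mem _ fun j _ => Submodule.smul_mem _ _ (hfy j)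
    have hg0 := (t_J2 k m _ hg).2 hx
    have hder := ih_sum hf x Finset.univ
    rw [hg0] at hder
    have hz := der_zero hder
    funext j
    exact (Fintype.linearIndependent_iff.mp hli) x hz j

end Pool.Agent.J4H43.SW
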