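import Pool.Agent.J4H43.SW.Stm

/-!
# Linearly independent elements of the same length generate a free algebra
-/

set_option autoImplicit false

namespace Pool.Agent.J4H43.SW

open Polynomial Pool.Agent.Helper392_GT Pool.Agent.J4H43.FR

universe u v

section

variable {k : Type u} [Field k] {Y : Type v}

theorem wc_wrd_mul (v : FreeMonoid Y) (b : FreeAlgebra k Y) (u : FreeMonoid Y) :
    ∀ w : FreeMonoid Y, w.length = u.length →
      wc (u * v) (wrd w * b) = wc u (wrd w : FreeAlgebra k Y) * wc v b := by
  induction u using FreeMonoid.recOn with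
  | one =>
    intro w hw
    have h1 : w = 1 := by
      induction w using FreeMonoid.casesOn with
      | one => rfl
      | of_mul z w =>
        rw [FreeMonoid.length_mul, FreeMonoid.length_of, FreeMonoid.length_one] at hw
        omega
    rw [h1, wc_wrd_self, wrd_one, one_mul, one_mul, one_mul]
  | of_mul y u ih =>
    intro w hw
    induction w using FreeMonoid.casesOn with
    | one =>
      rw [FreeMonoid.length_mul, FreeMonoid.length_of, FreeMonoid.length_one] at hw
      omega
    | of_mul z w =>
      rw [FreeMonoid.length_mul, FreeMonoid.length_mul, FreeMonoid.length_of,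
        FreeMonoid.length_of] at hw
      rw [wrd_mul, wrd_of, mul_assoc, mul_assoc]
      by_cases h : z = y
      · rw [h, wc_ι_mul, wc_ι_mul, ih w (by omega)]
      · rw [wc_ι_mul_ne h, wc_ι_mul_ne h, zero_mul]

theorem wc_mul_Hm {d : ℕ} {a : FreeAlgebra k Y} (ha : Hm d a) {u : FreeMonoid Y}
    (hu : u.length = d) (v : FreeMonoid Y) (b : FreeAlgebra k Y) :
    wc (u * v) (a * b) = wc u a * wc v b := by
  have h : ((wc (u * v) ∘ₗ LinearMap.mulRight k b) -
      (LinearMap.mulRight k (wc v b) ∘ₗ wc u)) a = 0 := by
    refine lin_zero _ fun w hw => ?_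
    have hl : w.length = d := by
      rw [← ha.self, wc_hc] at hw
      by_contra hl
      rw [if_neg hl] at hw
      exact hw rfl
    rw [LinearMap.sub_apply, LinearMap.comp_apply, LinearMap.comp_apply,
      LinearMap.mulRight_apply, LinearMap.mulRight_apply,
      wc_wrd_mul v b u w (by rw [hl, hu]), sub_self]
  rw [LinearMap.sub_apply, LinearMap.comp_apply, LinearMap.comp_apply,
    LinearMap.mulRight_apply, LinearMap.mulRight_apply, sub_eq_zero] at h
  exact h

theorem indep_mul {r d : ℕ} {H : Fin r → FreeAlgebra k Y} (hH : ∀ i, Hm d (H i))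
    (hli : ∀ c : Fin r → k, ∑ i, c i • H i = 0 → c = 0) {b : Fin r → FreeAlgebra k Y}
    (hb : ∑ i, H i * b i = 0) (i : Fin r) : b i = 0 := by
  refine wc_ext fun v => ?_
  refine congrFun (hli (fun i => wc v (b i)) ?_) i
  refine wc_ext fun u => ?_
  rw [map_sum]
  by_cases hu : u.length = d
  · have h1 := congrArg (wc (u * v)) hb
    rw [map_sum, map_zero] at h1
    rw [← h1]
    refine Finset.sum_congr rfl fun i _ => ?_
    rw [map_smul, wc_mul_Hm (hH i) hu, smul_eq_mul, mul_comm]
  · refine Finset.sum_eq_zero fun i _ => ?_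
    rw [map_smul, ← (hH i).self, wc_hc, if_neg hu, smul_zero]

end

theorem t_SW1 : S_SW1.{u} := by
  intro k _ r d hd H hH hli G
  have main : ∀ (n : ℕ) (G : FreeAlgebra k (Fin r)), (∀ m, n ≤ m → hc m G = 0) →
      FreeAlgebra.lift k H G = 0 → G = 0 := by
    intro n
    induction n with
    | zero => intro G hG _; exact eq_zero_of_hc fun m => hG m (Nat.zero_le m)
    | succ n ih =>
      intro G hG hz
      have e1 : FreeAlgebra.lift k H G = algebraMap k _ (eps G) +
          ∑ i, H i * FreeAlgebra.lift k H (lq G i) := by
        nth_rewrite 1 [decomp G]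
        rw [map_add, AlgHom.commutes, Finsupp.sum_fintype, map_sum]
        · congr 1
          refine Finset.sum_congr rfl fun i _ => ?_
          rw [map_mul, FreeAlgebra.lift_ι_apply]
        · intro i; rw [mul_zero]
      have e2 : eps G = 0 := by
        have h1 := congrArg (eps : BB k →ₐ[k] k) e1
        rw [hz, map_zero, map_add, AlgHom.commutes, map_sum] at h1
        rw [Finset.sum_eq_zero, add_zero] at h1
        · exact h1.symm
        · intro i _
          rw [map_mul, (hH i).eps_zero hd, zero_mul]
      rw [e2, map_zero, zero_add, hz] at e1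
      have e3 := indep_mul hH hli e1.symm
      refine eq_zero_of_lq e2 fun i => ih _ ?_ (e3 i)
      intro m hm
      rw [← lq_hc, hG (m + 1) (by omega), map_zero, Finsupp.zero_apply]
  intro hG
  obtain ⟨N, hN⟩ := sum_hc G
  exact main N G (fun m hm => (hN N le_rfl).2 m hm) hG

end Pool.Agent.J4H43.SW
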