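import Pool.Agent.J4H43.SW.Ind
import Pool.Agent.J4H43.SW.Le
import Pool.Agent.J4H43.SW.One
import Pool.Agent.J4H43.SW.Five
import Pool.Agent.J4H57.SW.Sw2
import Pool.Agent.J4H57.SW.Sw4

/-!
# Families of Lie elements of the same weight and depth
-/

set_option autoImplicit false
set_option linter.unusedSectionVars false

namespace Pool.Agent.J4H43.SW

open Polynomial Pool.Agent.Helper392_GT Pool.Agent.J4H43.FR

universe u v

attribute [local instance 100] LieRing.ofAssociativeRing

section gen

variable {k : Type u} [Field k] {r : ℕ}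

/-- the leading data of a Lie element -/
structure Lg (σ : F2 k) (d e : ℕ) : Prop where
  dep : DepthGE k d σ
  e1 : 1 ≤ e
  ne : hc d ((Ph σ).coeff e) ≠ 0
  top : ∀ a, e < a → hc d ((Ph σ).coeff a) = 0

theorem Lg.not {σ : F2 k} {d e : ℕ} (h : Lg σ d e) : ¬ DepthGE k (d + 1) σ := fun h1 =>
  h.ne (Ph_mem h1 d (Nat.lt_succ_self d) e)

theorem Lg.sym {σ : F2 k} {d e : ℕ} (h : Lg σ d e) :
    HasSym (rr σ) d e (-hc d ((Ph σ).coeff e)) :=
  HasSym_of (Low_cq h.dep h.e1) ⟨fun j hj a => Ph_mem h.dep j hj a, h.top⟩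

theorem exists_Lg [CharZero k] {σ : F2 k} {n d : ℕ} (hσ : σ ∈ wt k n) (hn : 2 ≤ n)
    (hd : DepthGE k d σ) (hnot : ¬ DepthGE k (d + 1) σ) : ∃ e, Lg σ d e := by
  classical
  obtain ⟨a, ha1, ha⟩ : ∃ a, 1 ≤ a ∧ hc d ((Ph σ).coeff a) ≠ 0 := by
    by_contra hcon
    push Not at hcon
    exact hnot (depth_succ hσ hn hd hcon)
  have ha' : a ≤ (Ph σ).natDegree := by
    by_contra hlt
    apply ha
    rw [coeff_eq_zero_of_natDegree_lt (not_le.mp hlt), map_zero]
  refine ⟨Nat.findGreatest (fun a => hc d ((Ph σ).coeff a) ≠ 0) (Ph σ).natDegree, hd,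
    ?_, ?_, ?_⟩
  · exact le_trans ha1 (Nat.le_findGreatest ha' ha)
  · exact Nat.findGreatest_spec (P := fun a => hc d ((Ph σ).coeff a) ≠ 0) ha' ha
  · intro b hb
    by_cases hb2 : b ≤ (Ph σ).natDegree
    · by_contra hcon
      exact Nat.findGreatest_is_greatest hb hb2 hcon
    · rw [coeff_eq_zero_of_natDegree_lt (not_le.mp hb2), map_zero]

/-- leading data of a family -/
structure LH (σ : Fin r → F2 k) (n d : ℕ) (e : Fin r → ℕ) : Prop where
  wt : ∀ i, σ i ∈ wt k n
  dep : ∀ i, DepthGE k d (σ i)
  li : ∀ c : Fin r → k, DepthGE k (d + 1) (∑ i, c i • σ i) → c = 0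
  ld : ∀ i, Lg (σ i) d (e i)

/-- one step of the reduction -/
theorem LH_step [CharZero k] {σ : Fin r → F2 k} {n d : ℕ} {e : Fin r → ℕ}
    (hn2 : 2 ≤ n) (L : LH σ n d e) {c : Fin r → k}
    (hc0 : ∑ i, c i • hc d ((Ph (σ i)).coeff (e i)) = 0) {j : Fin r} (hj : c j ≠ 0) :
    ∃ (b : Fin r → k) (e' : Fin r → ℕ), b j = 0 ∧ LH (el j b σ) n d e' ∧
      ∑ i, e' i < ∑ i, e i := by
  classical
  set c' : Fin r → k := fun i => (c j)⁻¹ * (if e i = e j then c i else 0) with hc'
  have hcj : c' j = 1 := by
    rw [hc']; simp only [if_true]; exact inv_mul_cancel₀ hj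
  have hrel : ∑ i, c' i • hc d ((Ph (σ i)).coeff (e i)) = 0 := by
    have h1 := hom_rel t_SW3 L.wt hc0 (e j)
    have h2 := congrArg (fun x => (c j)⁻¹ • x) h1
    simp only [Finset.smul_sum, smul_smul, smul_zero] at h2
    exact h2
  have hτ : ∀ {M : Type u} [AddCommGroup M] [Module k M] (s : Fin r → M),
      el j (Function.update c' j 0) s j = ∑ i, c' i • s i := by
    intro M _ _ s
    rw [el_self, upd_sum hcj]
  have hb : (Function.update c' j 0) j = 0 := Function.update_self _ _ _
  have hτw : (∑ i, c' i • σ i) ∈ wt k n :=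
    (wt k n).sum_mem fun i _ => (wt k n).smul_mem _ (L.wt i)
  have hτd : DepthGE k d (∑ i, c' i • σ i) := depth_sum L.dep c'
  have hτn : ¬ DepthGE k (d + 1) (∑ i, c' i • σ i) := by
    intro h
    have := congrFun (L.li c' h) j
    rw [hcj] at this
    exact one_ne_zero this
  obtain ⟨e', lτ⟩ := exists_Lg hτw hn2 hτd hτn
  have hlt : e' < e j := by
    by_contra hle
    apply lτ.ne
    rw [hc_Ph_sum]
    rcases Nat.eq_or_lt_of_le (not_lt.mp hle) with h | h
    · rw [← hrel]
      refine Finset.sum_congr rfl fun i _ => ?_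
      by_cases hi : e i = e j
      · rw [hi, h]
      · have : c' i = 0 := by rw [hc']; simp only [if_neg hi, mul_zero]
        rw [this, zero_smul, zero_smul]
    · refine Finset.sum_eq_zero fun i _ => ?_
      by_cases hi : e i = e j
      · rw [(L.ld i).top e' (by omega), smul_zero]
      · have : c' i = 0 := by rw [hc']; simp only [if_neg hi, mul_zero]
        rw [this, zero_smul]
  refine ⟨Function.update c' j 0, Function.update e j e', hb, ?_, ?_⟩
  · constructor
    · intro i
      by_cases h : i = j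
      · rw [h, hτ]
        exact (wt k n).sum_mem fun i _ => (wt k n).smul_mem _ (L.wt i)
      · rw [el_ne h]; exact L.wt i
    · intro i
      by_cases h : i = j
      · rw [h, hτ]; exact hτd
      · rw [el_ne h]; exact L.dep i
    · intro a ha
      have e1 : ∑ i, a i • el j (Function.update c' j 0) σ i =
          ∑ i, (Function.update a j 0 i + a j * c' i) • σ i := by
        have e2 : ∑ i, a i • el j (Function.update c' j 0) σ i =
            a j • el j (Function.update c' j 0) σ j +
              ∑ i, (Function.update a j 0) i • σ i := by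
          rw [← Finset.add_sum_erase _ (fun i => a i • el j (Function.update c' j 0) σ i)
            (Finset.mem_univ j), ← Finset.add_sum_erase _
              (fun i => (Function.update a j 0) i • σ i) (Finset.mem_univ j)]
          simp only [Function.update_self, zero_smul, zero_add]
          congr 1
          refine Finset.sum_congr rfl fun i hi => ?_
          rw [Function.update_of_ne (Finset.ne_of_mem_erase hi),
            el_ne (Finset.ne_of_mem_erase hi)]
        rw [e2, hτ, Finset.smul_sum, ← Finset.sum_add_distrib]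
        refine Finset.sum_congr rfl fun i _ => ?_
        rw [smul_smul, add_smul, add_comm]
      rw [e1] at ha
      have h5 := L.li _ ha
      have h6 := congrFun h5 j
      simp only [Function.update_self, hcj, mul_one, zero_add, Pi.zero_apply] at h6
      funext i
      by_cases h : i = j
      · rw [h]; exact h6
      · have h7 := congrFun h5 i
        simp only [Function.update_of_ne h, h6, zero_mul, add_zero, Pi.zero_apply] at h7
        exact h7
    · intro i
      by_cases h : i = j
      · rw [h, hτ, Function.update_self]; exact lτ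
      · rw [el_ne h, Function.update_of_ne h]; exact L.ld i
  · refine Finset.sum_lt_sum (fun i _ => ?_) ⟨j, Finset.mem_univ _, ?_⟩
    · by_cases h : i = j
      · rw [h, Function.update_self]; omega
      · rw [Function.update_of_ne h]
    · rw [Function.update_self]; exact hlt

theorem main_gen [CharZero k] {n d : ℕ} (hn2 : 2 ≤ n) (hd : 1 ≤ d) : ∀ (M : ℕ) (σ : Fin r → F2 k)
    (D : Fin r → LieDerivation k (F2 k) (F2 k)) (e : Fin r → ℕ), LH σ n d e →
    (∀ i, IsIharaDer (D i) (σ i)) → ∑ i, e i = M →
    ∀ (R : FreeLieAlgebra k (Fin r)) (h : F2 k) (N : ℕ),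
      FreeLieAlgebra.lift k D R (gy k) = ⁅gy k, h⁆ → hc N (toA k r R) ≠ 0 →
      ¬ DepthGE k (N * d + 1) h := by
  intro M
  induction M using Nat.strong_induction_on with
  | _ M ih =>
    intro σ D e L hD hM R h N hR hN hh
    by_cases hli : ∀ c : Fin r → k, ∑ i, c i • hc d ((Ph (σ i)).coeff (e i)) = 0 → c = 0
    · apply hN
      have hz : toA k r R = 0 := by
        refine caseA_fam hd (fun i => (L.ld i).sym) (fun G hG =>
          t_SW1 k r d hd _ (fun i => (Hm_hc _ _).neg) ?_ G hG)
          (fun i => (L.ld i).e1) (eps_toA R) ?_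
        · intro c hc0
          apply hli
          simp only [smul_neg, Finset.sum_neg_distrib, neg_eq_zero] at hc0
          exact hc0
        · intro u m hu hmin hm
          obtain ⟨w, hw⟩ : ∃ w, wc w (hc N (toA k r R)) ≠ 0 := by
            by_contra hcon
            push Not at hcon
            exact hN (wc_ext hcon)
          rw [wc_hc] at hw
          have hl : w.length = N := by
            by_contra hl
            rw [if_neg hl] at hw
            exact hw rfl
          rw [if_pos hl] at hw
          have h6 := hmin w hw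
          rw [hl] at h6
          exact t_SW5 k r σ D hD R h hR (u.length * d)
            (depth_mono (Nat.succ_le_succ (Nat.mul_le_mul_right d h6)) hh) m hm
      rw [hz, map_zero]
    · push Not at hli
      obtain ⟨c, hc0, hcne⟩ := hli
      obtain ⟨j, hj⟩ : ∃ j, c j ≠ 0 := by
        by_contra hcon
        push Not at hcon
        exact hcne (funext hcon)
      obtain ⟨b, e', hb, L', hlt⟩ := LH_step hn2 L hc0 hj
      refine ih (∑ i, e' i) (by omega) (el j b σ) (el j b D) e' L' (fun i => ih_el hD j b i) rfl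
        (chf j b R) h N ?_ ?_ hh
      · rw [lift_chf hb]; exact hR
      · rw [toA_chf hb, Pool.Agent.J4H57.SW.t_SW4 k r _ (Hm_el _)]
        intro h0
        exact hN (lift_el_inj hb h0)

theorem no_drop_gen [CharZero k] {n d : ℕ} (hn2 : 2 ≤ n) (hd : 1 ≤ d) {σ : Fin r → F2 k}
    (hw : ∀ i, σ i ∈ wt k n) (hdep : ∀ i, DepthGE k d (σ i))
    (hli : ∀ c : Fin r → k, DepthGE k (d + 1) (∑ i, c i • σ i) → c = 0)
    {D : Fin r → LieDerivation k (F2 k) (F2 k)} (hD : ∀ i, IsIharaDer (D i) (σ i))
    {R : FreeLieAlgebra k (Fin r)} {w : FreeMonoid (Fin r)} (hR : wc w (toA k r R) ≠ 0)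
    {h : F2 k} (hh : FreeLieAlgebra.lift k D R (gy k) = ⁅gy k, h⁆) :
    ¬ DepthGE k (w.length * d + 1) h := by
  classical
  have hn : ∀ i, ¬ DepthGE k (d + 1) (σ i) := by
    intro i hi
    have e1 : ∑ l, (Pi.single i (1 : k) : Fin r → k) l • σ l = σ i := by
      rw [Finset.sum_eq_single i]
      · rw [Pi.single_eq_same, one_smul]
      · intro l _ hl
        rw [Pi.single_eq_of_ne hl, zero_smul]
      · intro h; exact absurd (Finset.mem_univ _) h
    have e2 := hli (Pi.single i 1) (by rw [e1]; exact hi)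
    have e3 := congrFun e2 i
    rw [Pi.single_eq_same] at e3
    exact one_ne_zero e3
  have hL : ∀ i, ∃ e, Lg (σ i) d e := fun i => exists_Lg (hw i) hn2 (hdep i) (hn i)
  choose e he using hL
  refine main_gen hn2 hd _ σ D e ⟨hw, hdep, hli, he⟩ hD rfl R h w.length hh ?_
  intro hz
  apply hR
  have h6 := wc_hc w w.length (toA k r R)
  rw [if_pos rfl, hz, map_zero] at h6
  exact h6.symm

theorem free_gen [CharZero k] {n d : ℕ} (hn2 : 2 ≤ n) (hd : 1 ≤ d) {σ : Fin r → F2 k}
    (hw : ∀ i, σ i ∈ wt k n) (hdep : ∀ i, DepthGE k d (σ i))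
    (hli : ∀ c : Fin r → k, DepthGE k (d + 1) (∑ i, c i • σ i) → c = 0)
    {D : Fin r → LieDerivation k (F2 k) (F2 k)} (hD : ∀ i, IsIharaDer (D i) (σ i)) :
    Function.Injective (FreeLieAlgebra.lift k D) := by
  rw [injective_iff_map_eq_zero]
  intro R hR
  apply Pool.Agent.J4H57.SW.t_SW2 k r
  refine wc_ext fun w => ?_
  by_contra hw0
  refine no_drop_gen hn2 hd hw hdep hli hD hw0 (h := 0) ?_ (DepthGE.zero _)
  rw [hR, lie_zero]; rfl

end gen

end Pool.Agent.J4H43.SW
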