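import Pool.Agent.J4H43.SW.Fam

/-!
# Families of elements of the same weight and depth
-/

set_option autoImplicit false
set_option linter.unusedSectionVars false

namespace Pool.Agent.J4H43.SW

open Polynomial Pool.Agent.Helper392_GT Pool.Agent.J4H43.FR

universe u v

attribute [local instance 100] LieRing.ofAssociativeRing

section el

variable {k : Type u} [Field k] {r : ℕ} {M : Type v} [AddCommGroup M] [Module k M]

/-- elementary transformations of families -/
def el (j : Fin r) (b : Fin r → k) (s : Fin r → M) : Fin r → M :=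
  Function.update s j (s j + ∑ i, b i • s i)

theorem el_self (j : Fin r) (b : Fin r → k) (s : Fin r → M) :
    el j b s j = s j + ∑ i, b i • s i := Function.update_self _ _ _

theorem el_ne {j i : Fin r} (h : i ≠ j) (b : Fin r → k) (s : Fin r → M) :
    el j b s i = s i := Function.update_of_ne h _ _

theorem el_smul {j : Fin r} {b : Fin r → k} (hb : b j = 0) (b' : Fin r → k) (s : Fin r → M)
    (i : Fin r) : b i • el j b' s i = b i • s i := by
  by_cases h : i = j
  · rw [h, hb, zero_smul, zero_smul]
  · rw [el_ne h]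

theorem el_inv {j : Fin r} {b : Fin r → k} (hb : b j = 0) (s : Fin r → M) :
    el j (fun i => -b i) (el j b s) = s := by
  funext i
  by_cases h : i = j
  · subst h
    rw [el_self, el_self]
    have : ∑ l, (-b l) • el i b s l = -∑ l, b l • s l := by
      rw [← Finset.sum_neg_distrib]
      refine Finset.sum_congr rfl fun l _ => ?_
      rw [neg_smul, el_smul hb]
    rw [this, add_neg_cancel_right]
  · rw [el_ne h, el_ne h]

theorem el_inv' {j : Fin r} {b : Fin r → k} (hb : b j = 0) (s : Fin r → M) :
    el j b (el j (fun i => -b i) s) = s := by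
  have := el_inv (b := fun i => -b i) (by rw [hb, neg_zero]) s
  simpa using this

theorem el_map {N : Type*} [AddCommGroup N] [Module k N] (φ : M →ₗ[k] N) (j : Fin r)
    (b : Fin r → k) (s : Fin r → M) : (fun i => φ (el j b s i)) = el j b (fun i => φ (s i)) := by
  funext i
  by_cases h : i = j
  · subst h; rw [el_self, el_self, map_add, map_sum]; simp only [map_smul]
  · rw [el_ne h, el_ne h]

theorem upd_sum {j : Fin r} {c : Fin r → k} (hc : c j = 1) (s : Fin r → M) :
    s j + ∑ i, (Function.update c j 0) i • s i = ∑ i, c i • s i := by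
  classical
  rw [← Finset.add_sum_erase _ (fun i => c i • s i) (Finset.mem_univ j),
    ← Finset.add_sum_erase _ (fun i => (Function.update c j 0) i • s i) (Finset.mem_univ j)]
  simp only [Function.update_self, zero_smul, zero_add, hc, one_smul]
  congr 1
  refine Finset.sum_congr rfl fun i hi => ?_
  rw [Function.update_of_ne (Finset.ne_of_mem_erase hi)]

end el

section ind

variable {k : Type u} [Field k] {r : ℕ}

theorem toA_of (y : Fin r) : toA k r (FreeLieAlgebra.of k y) = FreeAlgebra.ι k y :=
  FreeLieAlgebra.lift_of_apply (R := k) (L := FreeAlgebra k (Fin r)) _ y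

theorem eps_toA (R : FreeLieAlgebra k (Fin r)) : wc 1 (toA k r R) = 0 := by
  rw [wc_one]
  refine Pool.Agent.Helper771.FreeLieGrad.free_induction (P := fun R => eps (toA k r R) = 0)
    ?_ ?_ ?_ ?_ ?_ R
  · intro y; rw [toA_of, eps_ι]
  · rw [map_zero, map_zero]
  · intro a b ha hb
    rw [map_add, map_add, ha, hb, add_zero]
  · intro c a ha
    rw [map_smul, map_smul, ha, smul_zero]
  · intro a b ha hb
    rw [LieHom.map_lie, Ring.lie_def, map_sub, map_mul, map_mul, ha, hb, mul_zero, sub_zero]

theorem depth_sum {d : ℕ} {s : Fin r → F2 k} (h : ∀ i, DepthGE k d (s i)) (c : Fin r → k) :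
    DepthGE k d (∑ i, c i • s i) :=
  Finset.sum_induction _ (fun x => DepthGE k d x) (fun _ _ ha hb => ha.add hb) (DepthGE.zero _)
    (fun i _ => (h i).smul _)

theorem ih_sum {σ : Fin r → F2 k} {D : Fin r → LieDerivation k (F2 k) (F2 k)}
    (hD : ∀ i, IsIharaDer (D i) (σ i)) (c : Fin r → k) (s : Finset (Fin r)) :
    IsIharaDer (∑ i ∈ s, c i • D i) (∑ i ∈ s, c i • σ i) := by
  classical
  induction s using Finset.induction_on with
  | empty =>
    rw [Finset.sum_empty, Finset.sum_empty]
    exact ⟨rfl, by rw [lie_zero]; rfl⟩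
  | insert a s ha ih =>
    rw [Finset.sum_insert ha, Finset.sum_insert ha]
    constructor
    · rw [LieDerivation.add_apply, LieDerivation.smul_apply, (hD a).1, ih.1, smul_zero, add_zero]
    · rw [LieDerivation.add_apply, LieDerivation.smul_apply, (hD a).2, ih.2, lie_add, lie_smul]

theorem ih_el {σ : Fin r → F2 k} {D : Fin r → LieDerivation k (F2 k) (F2 k)}
    (hD : ∀ i, IsIharaDer (D i) (σ i)) (j : Fin r) (b : Fin r → k) (i : Fin r) :
    IsIharaDer (el j b D i) (el j b σ i) := by
  by_cases h : i = j
  · subst h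
    rw [el_self, el_self]
    have h2 := ih_sum hD b Finset.univ
    constructor
    · rw [LieDerivation.add_apply, (hD i).1, h2.1, add_zero]
    · rw [LieDerivation.add_apply, (hD i).2, h2.2, lie_add]
  · rw [el_ne h, el_ne h]; exact hD i

/-- the change of variables -/
noncomputable def chf (j : Fin r) (b : Fin r → k) :
    FreeLieAlgebra k (Fin r) →ₗ⁅k⁆ FreeLieAlgebra k (Fin r) :=
  FreeLieAlgebra.lift k (el j (fun i => -b i) (FreeLieAlgebra.of k))

theorem lift_chf {j : Fin r} {b : Fin r → k} (hb : b j = 0) {g : Type*} [LieRing g]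
    [LieAlgebra k g] (s : Fin r → g) (R : FreeLieAlgebra k (Fin r)) :
    FreeLieAlgebra.lift k (el j b s) (chf j b R) = FreeLieAlgebra.lift k s R := by
  have h : (FreeLieAlgebra.lift k (el j b s)).comp (chf j b) = FreeLieAlgebra.lift k s := by
    apply FreeLieAlgebra.hom_ext
    intro i
    change FreeLieAlgebra.lift k (el j b s) (chf j b (FreeLieAlgebra.of k i)) = _
    rw [chf, FreeLieAlgebra.lift_of_apply, FreeLieAlgebra.lift_of_apply]
    have h1 := congrFun (el_map ((FreeLieAlgebra.lift k (el j b s) :
      FreeLieAlgebra k (Fin r) →ₗ⁅k⁆ g) : FreeLieAlgebra k (Fin r) →ₗ[k] g) j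
        (fun i => -b i) (FreeLieAlgebra.of k)) i
    have h2 : (fun i => ((FreeLieAlgebra.lift k (el j b s) : FreeLieAlgebra k (Fin r) →ₗ⁅k⁆ g) :
        FreeLieAlgebra k (Fin r) →ₗ[k] g) (FreeLieAlgebra.of k i)) = el j b s := by
      funext i
      exact FreeLieAlgebra.lift_of_apply (R := k) _ i
    rw [h2, el_inv hb] at h1
    exact h1
  exact congrArg (fun f : FreeLieAlgebra k (Fin r) →ₗ⁅k⁆ g => f R) h

theorem toA_chf {j : Fin r} {b : Fin r → k} (hb : b j = 0) (R : FreeLieAlgebra k (Fin r)) :
    toA k r (chf j b R) = FreeAlgebra.lift k (el j (fun i => -b i) (FreeAlgebra.ι k))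
      (toA k r R) := by
  have h : (toA k r).comp (chf j b) = ((FreeAlgebra.lift k (el j (fun i => -b i)
      (FreeAlgebra.ι k)) : FreeAlgebra k (Fin r) →ₐ[k] FreeAlgebra k (Fin r)) :
        FreeAlgebra k (Fin r) →ₗ⁅k⁆ FreeAlgebra k (Fin r)).comp (toA k r) := by
    apply FreeLieAlgebra.hom_ext
    intro i
    change toA k r (chf j b (FreeLieAlgebra.of k i)) =
      FreeAlgebra.lift k (el j (fun i => -b i) (FreeAlgebra.ι k))
        (toA k r (FreeLieAlgebra.of k i))
    rw [toA_of, FreeAlgebra.lift_ι_apply, chf, FreeLieAlgebra.lift_of_apply]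
    have h1 := congrFun (el_map ((toA k r : FreeLieAlgebra k (Fin r) →ₗ⁅k⁆
      FreeAlgebra k (Fin r)) : FreeLieAlgebra k (Fin r) →ₗ[k] FreeAlgebra k (Fin r)) j
        (fun i => -b i) (FreeLieAlgebra.of k)) i
    have h2 : (fun i => ((toA k r : FreeLieAlgebra k (Fin r) →ₗ⁅k⁆
      FreeAlgebra k (Fin r)) : FreeLieAlgebra k (Fin r) →ₗ[k] FreeAlgebra k (Fin r))
        (FreeLieAlgebra.of k i)) = FreeAlgebra.ι k := by
      funext i
      exact toA_of i
    rw [h2] at h1
    exact h1
  exact congrArg (fun f : FreeLieAlgebra k (Fin r) →ₗ⁅k⁆ FreeAlgebra k (Fin r) => f R) h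

theorem lift_el_inj {j : Fin r} {b : Fin r → k} (hb : b j = 0) {g : FreeAlgebra k (Fin r)}
    (h : FreeAlgebra.lift k (el j (fun i => -b i) (FreeAlgebra.ι k)) g = 0) : g = 0 := by
  have h1 : (FreeAlgebra.lift k (el j b (FreeAlgebra.ι k))).comp
      (FreeAlgebra.lift k (el j (fun i => -b i) (FreeAlgebra.ι k))) =
        AlgHom.id k (FreeAlgebra k (Fin r)) := by
    apply FreeAlgebra.hom_ext
    funext i
    change FreeAlgebra.lift k (el j b (FreeAlgebra.ι k)) (FreeAlgebra.lift k
      (el j (fun i => -b i) (FreeAlgebra.ι k)) (FreeAlgebra.ι k i)) = FreeAlgebra.ι k i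
    rw [FreeAlgebra.lift_ι_apply]
    have h1 := congrFun (el_map ((FreeAlgebra.lift k (el j b (FreeAlgebra.ι k)) :
      FreeAlgebra k (Fin r) →ₐ[k] FreeAlgebra k (Fin r)).toLinearMap) j
        (fun i => -b i) (FreeAlgebra.ι k)) i
    have h2 : (fun i => ((FreeAlgebra.lift k (el j b (FreeAlgebra.ι k)) :
      FreeAlgebra k (Fin r) →ₐ[k] FreeAlgebra k (Fin r)).toLinearMap) (FreeAlgebra.ι k i)) =
        el j b (FreeAlgebra.ι k) := by
      funext i
      exact FreeAlgebra.lift_ι_apply _ _
    rw [h2, el_inv hb] at h1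
    exact h1
  have h2 := congrArg (fun f : FreeAlgebra k (Fin r) →ₐ[k] FreeAlgebra k (Fin r) => f g) h1
  change FreeAlgebra.lift k (el j b (FreeAlgebra.ι k)) (FreeAlgebra.lift k
      (el j (fun i => -b i) (FreeAlgebra.ι k)) g) = g at h2
  rw [h, map_zero] at h2
  exact h2.symm

theorem Hm_el {j : Fin r} (b : Fin r → k) (i : Fin r) :
    Hm 1 (el j b (FreeAlgebra.ι k : Fin r → FreeAlgebra k (Fin r)) i) := by
  have h1 : ∀ i, Hm 1 (FreeAlgebra.ι k i : FreeAlgebra k (Fin r)) := fun i m => hc_ι m i
  by_cases h : i = j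
  · subst h
    rw [el_self]
    refine (h1 i).add ?_
    exact Finset.sum_induction _ (fun x => Hm 1 x) (fun _ _ ha hb => ha.add hb) (Hm.zero _)
      (fun i _ => (h1 i).smul _)
  · rw [el_ne h]; exact h1 i

theorem hom_rel (h3 : S_SW3.{u}) {σ : Fin r → F2 k} {n d : ℕ} {e : Fin r → ℕ}
    (hw : ∀ i, σ i ∈ wt k n) {c : Fin r → k}
    (hc0 : ∑ i, c i • hc d ((Ph (σ i)).coeff (e i)) = 0) (m : ℕ) :
    ∑ i, (if e i = m then c i else 0) • hc d ((Ph (σ i)).coeff (e i)) = 0 := by
  refine wc_ext fun v => ?_
  have key : ∀ i, wc v (hc d ((Ph (σ i)).coeff (e i))) ≠ 0 →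
      e i + d + (FreeMonoid.toList v).sum = n := by
    intro i hi
    rw [wc_hc] at hi
    split_ifs at hi with hl
    · rw [← hl]; exact h3 k n (σ i) (hw i) (e i) v hi
    · exact absurd rfl hi
  rw [map_sum]
  by_cases hv : m + d + (FreeMonoid.toList v).sum = n
  · have h := congrArg (wc v) hc0
    rw [map_sum, map_zero] at h
    rw [← h]
    refine Finset.sum_congr rfl fun i _ => ?_
    rw [map_smul, map_smul]
    split_ifs with hi
    · rfl
    · by_cases h0 : wc v (hc d ((Ph (σ i)).coeff (e i))) = 0
      · rw [h0, smul_zero, smul_zero]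
      · exact absurd (by have := key i h0; omega) hi
  · refine Finset.sum_eq_zero fun i _ => ?_
    rw [map_smul]
    split_ifs with hi
    · by_cases h0 : wc v (hc d ((Ph (σ i)).coeff (e i))) = 0
      · rw [h0, smul_zero]
      · exfalso
        apply hv
        have := key i h0
        omega
    · rw [zero_smul]

/-- leading data of a family -/
structure LF (σ : Fin r → F2 k) (n d : ℕ) (e : Fin r → ℕ) : Prop where
  grt : ∀ i, IsGRT k (σ i)
  wt : ∀ i, σ i ∈ wt k n
  dep : ∀ i, DepthGE k d (σ i)
  li : ∀ c : Fin r → k, DepthGE k (d + 1) (∑ i, c i • σ i) → c = 0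
  ld : ∀ i, Ld (σ i) d (e i)

theorem Ph_sum (σ : Fin r → F2 k) (c : Fin r → k) : Ph (∑ i, c i • σ i) = ∑ i, c i • Ph (σ i) := by
  have h : ∀ s : Finset (Fin r), Ph (∑ i ∈ s, c i • σ i) = ∑ i ∈ s, c i • Ph (σ i) := by
    classical
    intro s
    induction s using Finset.induction_on with
    | empty => rw [Finset.sum_empty, Finset.sum_empty, Ph, map_zero]; rfl
    | insert a s ha ih => rw [Finset.sum_insert ha, Finset.sum_insert ha, Ph_add, Ph_smul, ih]
  exact h _

theorem hc_Ph_sum (σ : Fin r → F2 k) (c : Fin r → k) (d a : ℕ) :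
    hc d ((Ph (∑ i, c i • σ i)).coeff a) = ∑ i, c i • hc d ((Ph (σ i)).coeff a) := by
  rw [Ph_sum, finsetSum_coeff, map_sum]
  exact Finset.sum_congr rfl fun i _ => by rw [coeff_smul, map_smul]

/-- one step of the reduction -/
theorem LF_step [CharZero k] (h3 : S_SW3.{u}) {σ : Fin r → F2 k} {n d : ℕ} {e : Fin r → ℕ}
    (L : LF σ n d e) {c : Fin r → k}
    (hc0 : ∑ i, c i • hc d ((Ph (σ i)).coeff (e i)) = 0) {j : Fin r} (hj : c j ≠ 0) :
    ∃ (b : Fin r → k) (e' : Fin r → ℕ), b j = 0 ∧ LF (el j b σ) n d e' ∧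
      ∑ i, e' i < ∑ i, e i := by
  classical
  set c' : Fin r → k := fun i => (c j)⁻¹ * (if e i = e j then c i else 0) with hc'
  have hcj : c' j = 1 := by
    rw [hc']; simp only [if_true]; exact inv_mul_cancel₀ hj
  have hrel : ∑ i, c' i • hc d ((Ph (σ i)).coeff (e i)) = 0 := by
    have h1 := hom_rel h3 L.wt hc0 (e j)
    have h2 := congrArg (fun x => (c j)⁻¹ • x) h1
    simp only [Finset.smul_sum, smul_smul, smul_zero] at h2
    exact h2
  have hτ : ∀ {M : Type u} [AddCommGroup M] [Module k M] (s : Fin r → M),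
      el j (Function.update c' j 0) s j = ∑ i, c' i • s i := by
    intro M _ _ s
    rw [el_self, upd_sum hcj]
  have hb : (Function.update c' j 0) j = 0 := Function.update_self _ _ _
  have hτg : IsGRT k (∑ i, c' i • σ i) :=
    (grtSub k).sum_mem fun i _ => (grtSub k).smul_mem _ (L.grt i)
  have hτd : DepthGE k d (∑ i, c' i • σ i) := depth_sum L.dep c'
  have hτn : ¬ DepthGE k (d + 1) (∑ i, c' i • σ i) := by
    intro h
    have := congrFun (L.li c' h) j
    rw [hcj] at this
    exact one_ne_zero this
  have hτ0 : (∑ i, c' i • σ i) ≠ 0 := by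
    intro h
    apply hτn
    rw [h]; exact DepthGE.zero _
  obtain ⟨d', e', lτ⟩ := exists_Ld hτg hτ0
  obtain rfl := depth_unique hτd hτn lτ.dep lτ.not
  have hlt : e' < e j := by
    by_contra hle
    apply lτ.ne
    rw [hc_Ph_sum]
    rcases Nat.eq_or_lt_of_le (not_lt.mp hle) with h | h
    · rw [← hrel]
      refine Finset.sum_congr rfl fun i _ => ?_
      by_cases hi : e i = e j
      · rw [hi, h]
      · have : c' i = 0 := by rw [hc']; simp only [if_neg hi, mul_zero]
        rw [this, zero_smul, zero_smul]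
    · refine Finset.sum_eq_zero fun i _ => ?_
      by_cases hi : e i = e j
      · rw [(L.ld i).top e' (by omega), smul_zero]
      · have : c' i = 0 := by rw [hc']; simp only [if_neg hi, mul_zero]
        rw [this, zero_smul]
  refine ⟨Function.update c' j 0, Function.update e j e', hb, ?_, ?_⟩
  · constructor
    · intro i
      by_cases h : i = j
      · rw [h, hτ]; exact hτg
      · rw [el_ne h]; exact L.grt i
    · intro i
      by_cases h : i = j
      · rw [h, hτ]
        exact (wt k n).sum_mem fun i _ => (wt k n).smul_mem _ (L.wt i)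
      · rw [el_ne h]; exact L.wt i
    · intro i
      by_cases h : i = j
      · rw [h, hτ]; exact hτd
      · rw [el_ne h]; exact L.dep i
    · intro a ha
      have e1 : ∑ i, a i • el j (Function.update c' j 0) σ i =
          ∑ i, (Function.update a j 0 i + a j * c' i) • σ i := by
        have e2 : ∑ i, a i • el j (Function.update c' j 0) σ i =
            a j • el j (Function.update c' j 0) σ j +
              ∑ i, (Function.update a j 0) i • σ i := by
          rw [← Finset.add_sum_erase _ (fun i => a i • el j (Function.update c' j 0) σ i)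
            (Finset.mem_univ j), ← Finset.add_sum_erase _
              (fun i => (Function.update a j 0) i • σ i) (Finset.mem_univ j)]
          simp only [Function.update_self, zero_smul, zero_add]
          congr 1
          refine Finset.sum_congr rfl fun i hi => ?_
          rw [Function.update_of_ne (Finset.ne_of_mem_erase hi),
            el_ne (Finset.ne_of_mem_erase hi)]
        rw [e2, hτ, Finset.smul_sum, ← Finset.sum_add_distrib]
        refine Finset.sum_congr rfl fun i _ => ?_
        rw [smul_smul, add_smul, add_comm]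
      rw [e1] at ha
      have h5 := L.li _ ha
      have h6 := congrFun h5 j
      simp only [Function.update_self, hcj, mul_one, zero_add, Pi.zero_apply] at h6
      funext i
      by_cases h : i = j
      · rw [h]; exact h6
      · have h7 := congrFun h5 i
        simp only [Function.update_of_ne h, h6, zero_mul, add_zero, Pi.zero_apply] at h7
        exact h7
    · intro i
      by_cases h : i = j
      · rw [h, hτ, Function.update_self]; exact lτ
      · rw [el_ne h, Function.update_of_ne h]; exact L.ld i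
  · refine Finset.sum_lt_sum (fun i _ => ?_) ⟨j, Finset.mem_univ _, ?_⟩
    · by_cases h : i = j
      · rw [h, Function.update_self]; omega
      · rw [Function.update_of_ne h]
    · rw [Function.update_self]; exact hlt

theorem main_fam [CharZero k] (h1 : S_SW1.{u}) (h3 : S_SW3.{u}) (h4 : S_SW4.{u})
    (h5 : S_SW5.{u}) {n d : ℕ} (hd : 1 ≤ d) : ∀ (M : ℕ) (σ : Fin r → F2 k)
    (D : Fin r → LieDerivation k (F2 k) (F2 k)) (e : Fin r → ℕ), LF σ n d e →
    (∀ i, IsIharaDer (D i) (σ i)) → ∑ i, e i = M →
    ∀ (R : FreeLieAlgebra k (Fin r)) (h : F2 k) (N : ℕ),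
      FreeLieAlgebra.lift k D R (gy k) = ⁅gy k, h⁆ → hc N (toA k r R) ≠ 0 →
      ¬ DepthGE k (N * d + 1) h := by
  intro M
  induction M using Nat.strong_induction_on with
  | _ M ih =>
    intro σ D e L hD hM R h N hR hN hh
    by_cases hli : ∀ c : Fin r → k, ∑ i, c i • hc d ((Ph (σ i)).coeff (e i)) = 0 → c = 0
    · apply hN
      have hz : toA k r R = 0 := by
        refine caseA_fam hd (fun i => (L.ld i).sym) (fun G hG =>
          h1 k r d hd _ (fun i => (Hm_hc _ _).neg) ?_ G hG)
          (fun i => by have := (L.ld i).e2; omega) (eps_toA R) ?_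
        · intro c hc0
          apply hli
          simp only [smul_neg, Finset.sum_neg_distrib, neg_eq_zero] at hc0
          exact hc0
        · intro u m hu hmin hm
          obtain ⟨w, hw⟩ : ∃ w, wc w (hc N (toA k r R)) ≠ 0 := by
            by_contra hcon
            push Not at hcon
            exact hN (wc_ext hcon)
          rw [wc_hc] at hw
          have hl : w.length = N := by
            by_contra hl
            rw [if_neg hl] at hw
            exact hw rfl
          rw [if_pos hl] at hw
          have h6 := hmin w hw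
          rw [hl] at h6
          exact h5 k r σ D hD R h hR (u.length * d)
            (depth_mono (Nat.succ_le_succ (Nat.mul_le_mul_right d h6)) hh) m hm
      rw [hz, map_zero]
    · push Not at hli
      obtain ⟨c, hc0, hcne⟩ := hli
      obtain ⟨j, hj⟩ : ∃ j, c j ≠ 0 := by
        by_contra hcon
        push Not at hcon
        exact hcne (funext hcon)
      obtain ⟨b, e', hb, L', hlt⟩ := LF_step h3 L hc0 hj
      refine ih (∑ i, e' i) (by omega) (el j b σ) (el j b D) e' L' (fun i => ih_el hD j b i) rfl
        (chf j b R) h N ?_ ?_ hh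
      · rw [lift_chf hb]; exact hR
      · rw [toA_chf hb, h4 k r _ (Hm_el _)]
        intro h0
        exact hN (lift_el_inj hb h0)

end ind

end Pool.Agent.J4H43.SW
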