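import Pool.Agent.J4H43.FR.Main

/-!
# Lie polynomials in the generators: statements
-/

set_option autoImplicit false

namespace Pool.Agent.J4H43.SW

open Pool.Agent.Helper392_GT Pool.Agent.Helper771.FreeLieGrad

universe u

/-- `m`-fold brackets of the generators (the letter `i` has weight `2i + 3`) of total weight
`N` -/
inductive Br (k : Type u) [Field k] : ℕ → ℕ → FreeLieAlgebra k ℕ → Prop
  | of (i : ℕ) : Br k 1 (2 * i + 3) (FreeLieAlgebra.of k i)
  | lie {m N m' N' : ℕ} {a b : FreeLieAlgebra k ℕ} (ha : Br k m N a) (hb : Br k m' N' b) :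
      Br k (m + m') (N + N') ⁅a, b⁆

/-- the Lie polynomials of degree `m` in the generators, homogeneous of weight `N` -/
noncomputable def piece (k : Type u) [Field k] (m N : ℕ) : Submodule k (FreeLieAlgebra k ℕ) :=
  Submodule.span k {a | Br k m N a}

/-- weights counting the letters `y` -/
def wy : Fin 2 → ℕ := ![0, 1]

def S_J1 : Prop := ∀ (k : Type u) [Field k] (D : ℕ → LieDerivation k (F2 k) (F2 k))
    (_ : ∀ i, IsIharaDer (D i) (vm k (2 * i + 2))) (m N : ℕ) (η : FreeLieAlgebra k ℕ)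
    (_ : η ∈ piece k m N), ∃ f : F2 k, IsIharaDer (FreeLieAlgebra.lift k D η) f ∧
      f ∈ wt k N ∧ f ∈ Hom (K := k) wy m

def S_J2 : Prop := ∀ (k : Type u) [Field k] [CharZero k] (m : ℕ) (f : F2 k)
    (_ : f ∈ Hom (K := k) wy m), DepthGE k m f ∧ (DepthGE k (m + 1) f → f = 0)

end Pool.Agent.J4H43.SW
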