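import Pool.Agent.J4H43.SW.Gen
import Pool.Agent.J4H43.SW.Stm2

/-!
# Relations between Lie polynomials of one degree and one weight
-/

set_option autoImplicit false
set_option linter.unusedSectionVars false

namespace Pool.Agent.J4H43.SW

open Pool.Agent.Helper392_GT Pool.Agent.J4H43.FR Pool.Agent.Helper771.FreeLieGrad

universe u

attribute [local instance 100] LieRing.ofAssociativeRing

section ker

variable {k : Type u} [Field k]

theorem der_zero {D : LieDerivation k (F2 k) (F2 k)} (h : IsIharaDer D 0) : D = 0 := by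
  apply LieDerivation.ext
  intro u
  refine free_ind (fun u => D u = 0) ?_ ?_ ?_ ?_ ?_ ?_ u
  · exact map_zero _
  · intro a b ha hb
    rw [map_add, ha, hb, add_zero]
  · intro c a ha
    rw [map_smul, ha, smul_zero]
  · intro a b ha hb
    rw [LieDerivation.apply_lie_eq_sub, ha, hb, lie_zero, lie_zero, sub_zero]
  · exact h.1
  · rw [h.2, lie_zero]

theorem Br_pos {m N : ℕ} {a : FreeLieAlgebra k ℕ} (h : Br k m N a) : 1 ≤ m ∧ 3 ≤ N := by
  induction h with
  | of i => exact ⟨le_rfl, by omega⟩
  | lie _ _ iha ihb => exact ⟨by omega, by omega⟩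

theorem piece_pos {m N : ℕ} {a : FreeLieAlgebra k ℕ} (h : a ∈ piece k m N) (ha : a ≠ 0) :
    1 ≤ m ∧ 3 ≤ N := by
  by_contra hcon
  apply ha
  have he : {a | Br k m N a} = (∅ : Set (FreeLieAlgebra k ℕ)) := by
    rw [Set.eq_empty_iff_forall_notMem]
    intro b hb
    exact hcon (Br_pos hb)
  rw [piece, he, Submodule.span_empty, Submodule.mem_bot] at h
  exact h

/-- congruence modulo an ideal -/
theorem lift_congr {s : ℕ} {L : Type*} [LieRing L] [LieAlgebra k L] (I : LieIdeal k L)
    {η η' : Fin s → L} (h : ∀ i, η i - η' i ∈ I) (R : FreeLieAlgebra k (Fin s)) :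
    FreeLieAlgebra.lift k η R - FreeLieAlgebra.lift k η' R ∈ I := by
  refine free_induction (P := fun R => FreeLieAlgebra.lift k η R -
    FreeLieAlgebra.lift k η' R ∈ I) ?_ ?_ ?_ ?_ ?_ R
  · intro y
    rw [FreeLieAlgebra.lift_of_apply, FreeLieAlgebra.lift_of_apply]
    exact h y
  · rw [map_zero, map_zero, sub_self]; exact I.zero_mem
  · intro a b ha hb
    rw [map_add, map_add, add_sub_add_comm]
    exact I.add_mem ha hb
  · intro c a ha
    rw [map_smul, map_smul, ← smul_sub]
    exact I.smul_mem c ha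
  · intro a b ha hb
    have e : FreeLieAlgebra.lift k η ⁅a, b⁆ - FreeLieAlgebra.lift k η' ⁅a, b⁆ =
        ⁅FreeLieAlgebra.lift k η a, FreeLieAlgebra.lift k η b - FreeLieAlgebra.lift k η' b⁆ -
          ⁅FreeLieAlgebra.lift k η' b, FreeLieAlgebra.lift k η a -
            FreeLieAlgebra.lift k η' a⁆ := by
      rw [LieHom.map_lie, LieHom.map_lie, lie_sub, lie_sub,
        ← lie_skew (FreeLieAlgebra.lift k η' b) (FreeLieAlgebra.lift k η a),
        ← lie_skew (FreeLieAlgebra.lift k η' b) (FreeLieAlgebra.lift k η' a)]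
      abel
    rw [e]
    exact I.sub_mem (lie_mem_right k L I _ _ hb) (lie_mem_right k L I _ _ ha)

theorem lift_lift {s q : ℕ} {L : Type*} [LieRing L] [LieAlgebra k L] (v : Fin q → L)
    (c : Fin s → Fin q → k) (R : FreeLieAlgebra k (Fin s)) :
    FreeLieAlgebra.lift k v (FreeLieAlgebra.lift k
      (fun i => ∑ j, c i j • FreeLieAlgebra.of k j) R) =
      FreeLieAlgebra.lift k (fun i => ∑ j, c i j • v j) R := by
  have h : (FreeLieAlgebra.lift k v).comp (FreeLieAlgebra.lift k
      (fun i => ∑ j, c i j • FreeLieAlgebra.of k j)) =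
        FreeLieAlgebra.lift k (fun i => ∑ j, c i j • v j) := by
    apply FreeLieAlgebra.hom_ext
    intro i
    change FreeLieAlgebra.lift k v (FreeLieAlgebra.lift k
      (fun i => ∑ j, c i j • FreeLieAlgebra.of k j) (FreeLieAlgebra.of k i)) = _
    rw [FreeLieAlgebra.lift_of_apply, FreeLieAlgebra.lift_of_apply, map_sum]
    refine Finset.sum_congr rfl fun j _ => ?_
    rw [map_smul, FreeLieAlgebra.lift_of_apply]
  exact congrArg (fun f : FreeLieAlgebra k (Fin s) →ₗ⁅k⁆ L => f R) h

theorem lift_comp {s : ℕ} {L L' : Type*} [LieRing L] [LieAlgebra k L] [LieRing L']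
    [LieAlgebra k L'] (β : L →ₗ⁅k⁆ L') (v : Fin s → L) (R : FreeLieAlgebra k (Fin s)) :
    β (FreeLieAlgebra.lift k v R) = FreeLieAlgebra.lift k (fun i => β (v i)) R := by
  have h : β.comp (FreeLieAlgebra.lift k v) = FreeLieAlgebra.lift k (fun i => β (v i)) := by
    apply FreeLieAlgebra.hom_ext
    intro i
    change β (FreeLieAlgebra.lift k v (FreeLieAlgebra.of k i)) = _
    rw [FreeLieAlgebra.lift_of_apply, FreeLieAlgebra.lift_of_apply]
  exact congrArg (fun f : FreeLieAlgebra k (Fin s) →ₗ⁅k⁆ L' => f R) h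

theorem ker_piece [CharZero k] (j1 : S_J1.{u}) (j2 : S_J2.{u})
    {D : ℕ → LieDerivation k (F2 k) (F2 k)}
    (hD : ∀ i, IsIharaDer (D i) (vm k (2 * i + 2))) {m N s : ℕ}
    {η : Fin s → FreeLieAlgebra k ℕ} (hη : ∀ i, η i ∈ piece k m N)
    {R : FreeLieAlgebra k (Fin s)}
    (hR : FreeLieAlgebra.lift k D (FreeLieAlgebra.lift k η R) = 0) :
    FreeLieAlgebra.lift k η R ∈ LieSubmodule.lieSpan k (FreeLieAlgebra k ℕ)
      {ζ | ζ ∈ piece k m N ∧ FreeLieAlgebra.lift k D ζ = 0} := by
  classical
  set β : FreeLieAlgebra k ℕ →ₗ⁅k⁆ LieDerivation k (F2 k) (F2 k) := FreeLieAlgebra.lift k D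
    with hβ
  set I : LieIdeal k (FreeLieAlgebra k ℕ) := LieSubmodule.lieSpan k (FreeLieAlgebra k ℕ)
      {ζ | ζ ∈ piece k m N ∧ β ζ = 0} with hI
  have hIβ : ∀ z ∈ I, β z = 0 := by
    intro z hz
    have h1 : I ≤ β.ker := by
      rw [hI, LieSubmodule.lieSpan_le]
      intro z hz
      exact (LieHom.mem_ker (f := β)).mpr hz.2
    exact (LieHom.mem_ker (f := β)).mp (h1 hz)
  obtain ⟨κ, a, ha, hsp, hli⟩ := exists_linearIndependent' k (fun i => β (η i))
  have : Finite κ := Finite.of_injective a ha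
  obtain ⟨q, ⟨e⟩⟩ := Finite.exists_equiv_fin κ
  set b : Fin q → Fin s := fun j => a (e.symm j) with hb
  have hli' : LinearIndependent k (fun j => β (η (b j))) := hli.comp e.symm e.symm.injective
  have hmem : ∀ i, ∃ c : Fin q → k, ∑ j, c j • β (η (b j)) = β (η i) := by
    intro i
    have h1 : β (η i) ∈ Submodule.span k (Set.range (fun j => β (η (b j)))) := by
      have h2 : Set.range (fun j => β (η (b j))) = Set.range ((fun i => β (η i)) ∘ a) := by
        rw [hb]
        exact (e.symm.surjective.range_comp ((fun i => β (η i)) ∘ a))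
      rw [h2, hsp]
      exact Submodule.subset_span ⟨i, rfl⟩
    rwa [Submodule.mem_span_range_iff_exists_fun] at h1
  choose c hc using hmem
  have hcongr : ∀ i, η i - ∑ j, c i j • η (b j) ∈ I := by
    intro i
    apply LieSubmodule.subset_lieSpan
    refine ⟨Submodule.sub_mem _ (hη i) (Submodule.sum_mem _ fun j _ =>
      Submodule.smul_mem _ _ (hη _)), ?_⟩
    rw [map_sub, map_sum, ← hc i, sub_eq_zero]
    exact Finset.sum_congr rfl fun j _ => (map_smul _ _ _).symm
  have h1 := lift_congr I hcongr R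
  set R' : FreeLieAlgebra k (Fin q) := FreeLieAlgebra.lift k
    (fun i => ∑ j, c i j • FreeLieAlgebra.of k j) R with hR'
  have h2 : FreeLieAlgebra.lift k (fun i => ∑ j, c i j • η (b j)) R =
      FreeLieAlgebra.lift k (fun j => η (b j)) R' := (lift_lift _ c R).symm
  have h3 : FreeLieAlgebra.lift k (fun j => β (η (b j))) R' = 0 := by
    rw [← lift_comp β (fun j => η (b j)) R', ← h2]
    have h4 := hIβ _ h1
    rw [map_sub, hR, zero_sub, neg_eq_zero] at h4
    exact h4
  have h5 : R' = 0 := by
    rcases Nat.eq_zero_or_pos q with h0 | h0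
    · subst h0
      exact free_induction (P := fun R' : FreeLieAlgebra k (Fin 0) => R' = 0)
        (fun y => y.elim0) rfl (fun a b ha hb => by rw [ha, hb, add_zero])
        (fun c a ha => by rw [ha, smul_zero]) (fun a b ha hb => by rw [ha, zero_lie]) R'
    · have hne : η (b ⟨0, h0⟩) ≠ 0 := by
        intro hz
        apply hli'.ne_zero ⟨0, h0⟩
        change β (η (b ⟨0, h0⟩)) = 0
        rw [hz, map_zero]
      obtain ⟨hm, hN⟩ := piece_pos (hη _) hne
      choose f hf hfw hfy using fun j => j1 k D hD m N (η (b j)) (hη _)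
      have hinj : Function.Injective (FreeLieAlgebra.lift k (fun j => β (η (b j)))) := by
        refine free_gen (n := N) (d := m) (by omega) hm hfw (fun j => (j2 k m (f j) (hfy j)).1)
          ?_ hf
        intro x hx
        have hg : ∑ j, x j • f j ∈ Hom (K := k) wy m :=
          Submodule.sum_mem _ fun j _ => Submodule.smul_mem _ _ (hfy j)
        have hg0 := (j2 k m _ hg).2 hx
        have hder := ih_sum hf x Finset.univ
        rw [hg0] at hder
        have hz := der_zero hder
        funext j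
        exact (Fintype.linearIndependent_iff.mp hli') x hz j
      exact hinj (by rw [h3, map_zero])
  rw [h2, h5, map_zero, sub_zero] at h1
  exact h1

end ker

end Pool.Agent.J4H43.SW
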