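import Pool.Agent.J4H43.FR.Main

/-!
# Families of elements of the same depth: statements
-/

set_option autoImplicit false

namespace Pool.Agent.J4H43.SW

open Polynomial Pool.Agent.Helper392_GT Pool.Agent.J4H43.FR

universe u

attribute [local instance 100] LieRing.ofAssociativeRing

/-- the map from the free Lie algebra to the free associative algebra -/
noncomputable def toA (k : Type u) [Field k] (r : ℕ) :
    FreeLieAlgebra k (Fin r) →ₗ⁅k⁆ FreeAlgebra k (Fin r) :=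
  FreeLieAlgebra.lift k (FreeAlgebra.ι k)

def S_SW1 : Prop := ∀ (k : Type u) [Field k] (r d : ℕ) (_ : 1 ≤ d) (H : Fin r → BB k)
    (_ : ∀ i, Hm d (H i)) (_ : ∀ c : Fin r → k, ∑ i, c i • H i = 0 → c = 0)
    (G : FreeAlgebra k (Fin r)) (_ : FreeAlgebra.lift k H G = 0), G = 0

def S_SW2 : Prop := ∀ (k : Type u) [Field k] [CharZero k] (r : ℕ)
    (a : FreeLieAlgebra k (Fin r)) (_ : toA k r a = 0), a = 0

def S_SW3 : Prop := ∀ (k : Type u) [Field k] (n : ℕ) (σ : F2 k) (_ : σ ∈ wt k n) (a : ℕ)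
    (v : FreeMonoid ℕ) (_ : wc v ((Ph σ).coeff a) ≠ 0),
    a + v.length + (FreeMonoid.toList v).sum = n

def S_SW4 : Prop := ∀ (k : Type u) [Field k] (r : ℕ) (f : Fin r → FreeAlgebra k (Fin r))
    (_ : ∀ i, Hm 1 (f i)) (g : FreeAlgebra k (Fin r)) (n : ℕ),
    hc n (FreeAlgebra.lift k f g) = FreeAlgebra.lift k f (hc n g)

def S_SW5 : Prop := ∀ (k : Type u) [Field k] (r : ℕ) (σ : Fin r → F2 k)
    (D : Fin r → LieDerivation k (F2 k) (F2 k)) (_ : ∀ i, IsIharaDer (D i) (σ i))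
    (R : FreeLieAlgebra k (Fin r)) (h : F2 k)
    (_ : FreeLieAlgebra.lift k D R (gy k) = ⁅gy k, h⁆) (q : ℕ) (_ : DepthGE k (q + 1) h)
    (m : ℕ) (_ : 1 ≤ m),
    hc q ((FreeAlgebra.lift k (fun i => rr (σ i)) (toA k r R) (1 : (BB k)[X])).coeff m) = 0

end Pool.Agent.J4H43.SW
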