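import Pool.Agent.J4H43.SW.Stm

/-!
# Index weights
-/

set_option autoImplicit false

namespace Pool.Agent.J4H43.SW

open Polynomial Pool.Agent.Helper392_GT Pool.Agent.J4H43.FR

universe u

attribute [local instance 100] LieRing.ofAssociativeRing

section

variable {k : Type u} [Field k]

theorem Hm_wt {n : ℕ} {σ : F2 k} (hσ : σ ∈ wt k n) : Hm n (toAssoc k σ) := by
  have h1 : ∀ i : Fin 2, Hm 1 (FreeAlgebra.ι k i : FreeAlgebra k (Fin 2)) := fun i m => hc_ι m i
  have hlie : ∀ (y : Fin 2) (n : ℕ) (u : F2 k), Hm n (toAssoc k u) →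
      Hm (n + 1) (toAssoc k ⁅(FreeLieAlgebra.of k y : F2 k), u⁆) := by
    intro y n u hu
    rw [toAssoc_lie, toAssoc_of]
    refine Hm.sub ?_ ?_
    · rw [add_comm]; exact (h1 y).mul hu
    · exact hu.mul (h1 y)
  refine wt_ind (fun n u => Hm n (toAssoc k u)) ?_ ?_ ?_ ?_ ?_ ?_ ?_ n hσ
  · intro n; rw [map_zero]; exact Hm.zero n
  · intro n a b ha hb; rw [map_add]; exact ha.add hb
  · intro n c a ha; rw [map_smul]; exact ha.smul c
  · have : toAssoc k (gx k) = FreeAlgebra.ι k 0 := toAssoc_of k 0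
    rw [this]; exact h1 0
  · have : toAssoc k (gy k) = FreeAlgebra.ι k 1 := toAssoc_of k 1
    rw [this]; exact h1 1
  · intro n u _ hu
    exact hlie 0 n u hu
  · intro n u _ hu
    exact hlie 1 n u hu

theorem length_wd (v : FreeMonoid ℕ) : ∀ a, (wd a v).length =
    a + v.length + (FreeMonoid.toList v).sum := by
  induction v using FreeMonoid.recOn with
  | one =>
    intro a
    induction a with
    | zero => rw [wd_zero_one]; rfl
    | succ a ih =>
      rw [wd_succ, FreeMonoid.length_mul, FreeMonoid.length_of, ih]; ring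
  | of_mul c v ih =>
    intro a
    induction a with
    | zero =>
      rw [wd_cons, FreeMonoid.length_mul, FreeMonoid.length_of, ih, FreeMonoid.length_mul,
        FreeMonoid.length_of, FreeMonoid.toList_of_mul, List.sum_cons]
      ring
    | succ a ih2 => rw [wd_succ, FreeMonoid.length_mul, FreeMonoid.length_of, ih2]; ring

end

theorem t_SW3 : S_SW3.{u} := by
  intro k _ n σ hσ a v h
  rw [wc_Ph] at h
  have h2 : wc (wd a v) (toAssoc k σ) ≠ 0 := h
  rw [← (Hm_wt hσ).self, wc_hc] at h2
  rw [← length_wd]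
  by_contra hne
  rw [if_neg hne] at h2
  exact h2 rfl

end Pool.Agent.J4H43.SW
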